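import Pool.Agent.Lib.MP_688fd0_co.SQ3.V.NoCut

/-!
NO CUT VERTEX: a finite connected graph of strands such that every strand `s` is moved to one of its neighbours by an
automorphism without fixed points (for instance an element of a group acting freely) has no cut vertex. With at least three
strands every strand has two neighbours.
-/

set_option autoImplicit false
set_option linter.unusedSectionVars false

namespace Pool.Agent.Lib.MP_688fd0_co.SQ4

open Pool.Agent.Lib.MP_688fd0_co.SQ2.V Pool.Agent.Lib.MP_688fd0_co.SQ2.V.Puz Pool.Agent.Lib.MP_688fd0_co.SQ2.V.AvoidOf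

section

variable {S R : Type} [DecidableEq S] {P : Puz S R}

/-- Every strand has a neighbour to which it is moved by an automorphism without fixed points. -/
def FreeNb (P : Puz S R) : Prop :=
  ∀ s : S, ∃ h : Equiv.Perm S, (∀ a b, N P (h a) (h b) ↔ N P a b) ∧ (∀ a, h a ≠ a) ∧ N P s (h s)

/-- From a free action. -/
theorem FreeNb.of_group {Γ : Type*} [Group Γ] [MulAction Γ S] (hN : ∀ (g : Γ) (a b : S), N P a b → N P (g • a) (g • b))
    (hfree : ∀ (g : Γ) (a : S), g • a = a → g = 1) (h : ∀ s : S, ∃ g : Γ, N P s (g • s)) : FreeNb P := by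
  intro s
  obtain ⟨g, hg⟩ := h s
  refine ⟨MulAction.toPerm g, fun a b => ⟨fun h1 => ?_, fun h1 => hN g a b h1⟩, fun a ha => ?_, hg⟩
  · have h2 := hN g⁻¹ _ _ h1
    simpa using h2
  · have h1 := hfree g a ha
    rw [h1, one_smul] at hg
    exact N_ne hg rfl

theorem C_perm {h : Equiv.Perm S} (hN : ∀ a b, N P (h a) (h b) ↔ N P a b) {L s t : S} (hC : C P L s t) :
    C P (h L) (h s) (h t) := by
  unfold C at hC ⊢
  induction hC with
  | refl => exact Relation.ReflTransGen.refl
  | tail _ hbc ih =>
    exact ih.tail ⟨(hN _ _).2 hbc.1, fun e => hbc.2.1 (h.injective e), fun e => hbc.2.2 (h.injective e)⟩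

theorem C_perm_iff {h : Equiv.Perm S} (hN : ∀ a b, N P (h a) (h b) ↔ N P a b) {L s t : S} :
    C P (h L) (h s) (h t) ↔ C P L s t := by
  constructor
  · intro hC
    have h1 : ∀ a b, N P (h.symm a) (h.symm b) ↔ N P a b := by
      intro a b
      rw [← hN, Equiv.apply_symm_apply, Equiv.apply_symm_apply]
    have h2 := C_perm h1 hC
    simpa using h2
  · exact C_perm hN

theorem C_ne {L s t : S} (hs : s ≠ L) (hC : C P L s t) : t ≠ L := by
  induction hC with
  | refl => exact hs
  | tail _ hbc _ => exact hbc.2.2

theorem conn_all (hf : FreeNb P) (hc : P.ConnS) (s t : S) : Relation.ReflTransGen (N P) s t := by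
  obtain ⟨_, _, _, h1⟩ := hf s
  obtain ⟨_, _, _, h2⟩ := hf t
  obtain ⟨r1, hr1, _⟩ := rung_of_N h1
  obtain ⟨r2, hr2, _⟩ := rung_of_N h2
  exact conn_strands' hc hr1 hr2

open Classical in
/-- No strand is a cut vertex. -/
theorem noCutC [Fintype S] (hf : FreeNb P) (hc : P.ConnS) : ∀ (n : ℕ) (L s : S),
    (Finset.univ.filter fun u => C P L s u).card = n → s ≠ L → ∀ t, t ≠ L → C P L s t := by
  intro n
  induction n using Nat.strong_induction_on with
  | _ n ih =>
    intro L s hn hsL t htL
    by_contra hst
    -- the component contains no cut vertex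
    have hno : ∀ v, C P L s v → ∀ a b, a ≠ v → b ≠ v → C P v a b := by
      intro v hv a b ha hb
      by_contra hab
      have hvL : v ≠ L := C_ne hsL hv
      have hd : ∃ d, d ≠ v ∧ ¬ C P v d L := by
        by_cases h1 : C P v a L
        · exact ⟨b, hb, fun h2 => hab (h1.trans h2.symm)⟩
        · exact ⟨a, ha, h1⟩
      obtain ⟨d, hd1, hd3⟩ := hd
      have hsub : ∀ u, C P v d u → u ≠ L ∧ C P L d u := by
        intro u hu
        have hdL : d ≠ L := fun e => hd3 (e ▸ Relation.ReflTransGen.refl)
        induction hu with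
        | refl => exact ⟨hdL, Relation.ReflTransGen.refl⟩
        | @tail b c hb hbc ihb =>
          have hcL : c ≠ L := fun e => hd3 (Eq.mp (congrArg (fun z => C P v d z) e)
            (Relation.ReflTransGen.tail hb hbc))
          exact ⟨hcL, ihb.2.tail ⟨hbc.1, ihb.1, hcL⟩⟩
      have hLd : C P L s d := by
        rcases first_hit hd1 (conn_all hf hc d v) with h | ⟨e, he1, he2, he3⟩
        · exact absurd rfl h.1
        · obtain ⟨e4, e5⟩ := hsub e he1
          have h6 : C P L e v := Relation.ReflTransGen.single ⟨he3, e4, hvL⟩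
          exact hv.trans (C.symm (e5.trans h6))
      have hlt : (Finset.univ.filter fun u => C P v d u).card < n := by
        rw [← hn]
        apply Finset.card_lt_card
        rw [Finset.ssubset_iff_of_subset]
        · refine ⟨v, by simpa using hv, ?_⟩
          simp only [Finset.mem_filter, Finset.mem_univ, true_and]
          intro h
          exact C_ne hd1 h rfl
        · intro u hu
          simp only [Finset.mem_filter, Finset.mem_univ, true_and] at hu ⊢
          exact hLd.trans (hsub u hu).2
      exact hd3 (ih _ hlt v d rfl hd1 L hvL.symm)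
    obtain ⟨h, hN, hfp, hss⟩ := hf s
    have hcut : ∀ v, C P L s v → v ≠ h L := by
      intro v hv e
      refine hst ((C_perm_iff hN).1 ?_)
      rw [← e]
      refine hno v hv _ _ ?_ ?_
      · rw [e]; exact fun e' => hsL (h.injective e')
      · rw [e]; exact fun e' => htL (h.injective e')
    -- `h s` is not `L`
    have hsL' : h s ≠ L := by
      intro e
      have h1 := hno s Relation.ReflTransGen.refl (h.symm s) (h.symm t) (fun e' => ?_) (fun e' => ?_)
      · have h2 := C_perm hN h1
        rw [Equiv.apply_symm_apply, Equiv.apply_symm_apply, e] at h2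
        exact hst h2
      · rw [Equiv.symm_apply_eq] at e'
        exact hfp s e'.symm
      · rw [Equiv.symm_apply_eq] at e'
        exact htL (e'.trans e)
    have hd : C P L s (h s) := Relation.ReflTransGen.single ⟨hss, hsL, hsL'⟩
    -- the component is contained in its image
    have hsub : ∀ u, C P L (h s) u → C P (h L) (h s) u := by
      intro u hu
      induction hu with
      | refl => exact Relation.ReflTransGen.refl
      | @tail b c hb hbc ihb =>
        exact ihb.tail ⟨hbc.1, hcut b (hd.trans hb), hcut c (hd.trans (hb.tail hbc))⟩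
    have hcard : (Finset.univ.filter fun u => C P (h L) (h s) u).card = n := by
      rw [← hn]
      refine (Finset.card_bij (fun u _ => h u) ?_ ?_ ?_).symm
      · intro u hu
        simp only [Finset.mem_filter, Finset.mem_univ, true_and] at hu ⊢
        exact C_perm hN hu
      · intro u _ u' _ e
        exact h.injective e
      · intro u hu
        simp only [Finset.mem_filter, Finset.mem_univ, true_and] at hu ⊢
        refine ⟨h.symm u, ?_, Equiv.apply_symm_apply _ _⟩
        rw [← C_perm_iff hN, Equiv.apply_symm_apply]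
        exact hu
    have heq : (Finset.univ.filter fun u => C P L s u) = Finset.univ.filter fun u => C P (h L) (h s) u := by
      refine Finset.eq_of_subset_of_card_le ?_ (by rw [hcard, hn])
      intro u hu
      simp only [Finset.mem_filter, Finset.mem_univ, true_and] at hu ⊢
      exact hsub u (hd.symm.trans hu)
    -- the boundary
    rcases first_hit hsL (conn_all hf hc s L) with h1 | ⟨e, he1, he2, he3⟩
    · exact h1.1 rfl
    · have h2 : e ∈ Finset.univ.filter fun u => C P (h L) (h s) u := by
        rw [← heq]
        simpa using he1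
      simp only [Finset.mem_filter, Finset.mem_univ, true_and] at h2
      by_cases h3 : L = h L
      · exact hfp L h3.symm
      · have h4 : C P (h L) (h s) L := h2.tail ⟨he3, hcut e he1, h3⟩
        have h5 : L ∈ Finset.univ.filter fun u => C P (h L) (h s) u := by simpa using h4
        rw [← heq] at h5
        simp only [Finset.mem_filter, Finset.mem_univ, true_and] at h5
        exact C_ne hsL h5 rfl

/-- `NoCut` from automorphisms without fixed points. -/
theorem noCut_of_free [Finite S] (hf : FreeNb P) (hc : P.ConnS) : P.NoCut := by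
  haveI := Fintype.ofFinite S
  intro L
  have hav : ∀ {r : R} {v : S}, P.On r v → v ≠ L → P.oth r v ≠ L → ¬ P.On r L := by
    intro r v h1 h2 h4 h5
    rcases (on_iff_oth h1).1 h5 with h | h
    · exact h2 h.symm
    · exact h4 h.symm
  have hav' : ∀ {r : R} {v : S}, P.On r v → ¬ P.On r L → v ≠ L ∧ P.oth r v ≠ L := by
    intro r v h1 h2
    refine ⟨fun h => h2 (h ▸ h1), fun h => h2 ((on_iff_oth h1).2 (Or.inr h.symm))⟩
  have key : ∀ {a b : S}, C P L a b → ∀ {r r' : R}, ¬ P.On r L → ¬ P.On r' L → P.On r a → P.On r' b →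
      Relation.ReflTransGen (fun a b => ¬ P.On a L ∧ ¬ P.On b L ∧ ∃ v, P.On a v ∧ P.On b v) r r' := by
    intro a b h
    induction h with
    | refl => intro r r' h1 h2 h4 h5; exact Relation.ReflTransGen.single ⟨h1, h2, _, h4, h5⟩
    | tail _ hbc ih =>
      intro r r' h1 h2 h4 h5
      obtain ⟨q, hq1, hq2⟩ := rung_of_N hbc.1
      have hq : ¬ P.On q L := hav hq1 hbc.2.1 (by rw [hq2]; exact hbc.2.2)
      have hqc := (on_iff_oth hq1).2 (Or.inr hq2.symm)
      exact (ih h1 hq h4 hq1).trans (Relation.ReflTransGen.single ⟨hq, h2, _, hqc, h5⟩)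
  intro r r' h1 h2
  exact key (noCutC hf hc _ L (P.x r) rfl (hav' (on_x r) h1).1 (P.x r') (hav' (on_x r') h2).1) h1 h2 (on_x r) (on_x r')

/-- Two neighbours. -/
theorem twoN_of_free [Fintype S] (hf : FreeNb P) (hc : P.ConnS) (h3 : 3 ≤ Fintype.card S) : P.TwoN := by
  classical
  intro r v hv
  obtain ⟨w, hw⟩ : ∃ w, w ∉ ({v, P.oth r v} : Finset S) := by
    by_contra hno
    push Not at hno
    have h1 : (Finset.univ : Finset S) ⊆ {v, P.oth r v} := fun w _ => hno w
    have h2 := le_trans (Finset.card_le_card h1) Finset.card_le_two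
    rw [Finset.card_univ] at h2
    omega
  rw [Finset.mem_insert, Finset.mem_singleton, not_or] at hw
  have h1 : C P (P.oth r v) v w := noCutC hf hc _ _ v rfl (AvoidOf.oth_ne hv).symm w hw.2
  rcases Relation.ReflTransGen.cases_head h1 with h2 | ⟨m, h2, _⟩
  · exact absurd h2.symm hw.1
  · obtain ⟨q, hq1, hq2⟩ := rung_of_N h2.1
    exact ⟨q, hv, hq1, fun e => h2.2.2 (hq2.symm.trans e.symm)⟩

end

end Pool.Agent.Lib.MP_688fd0_co.SQ4
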