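import Pool.Agent.Lib.MP_688fd0_co.SQ4.IfaceV2
import Pool.Agent.Lib.MP_688fd0_co.SQ4.H69.NoCut

/-!
Type C1, WORLD, row COMPX: the puzzle of one component of a family with cross rungs. `D` is normal and acts freely from the
left on the strands, the sheets and the rungs are preserved: no strand is a cut vertex. RET2 (inner rungs against cross
rungs) gives the strong connectivity.
-/

set_option autoImplicit false
set_option linter.unusedSectionVars false

namespace Pool.Agent.Lib.MP_688fd0_co.SQ4.CV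

open Pool.Agent.Lib.MP_688fd0_co.OSF Pool.Agent.Lib.MP_688fd0_co.SQ2 Pool.Agent.Lib.MP_688fd0_co.SQ3
open Pool.Agent.Lib.MP_688fd0_co.SQ4
open SQ2.V (Puz)
open SQ2.V.Puz (St)

section lem

variable {Q : Type} [Group Q] {D : Subgroup Q} {eps : Q →* ℤˣ}

theorem rfC_mul_left {α δ x : Q} (hδ : eps δ = 1) : rfC eps α (δ * x) = δ * rfC eps α x := by
  unfold rfC
  rw [map_mul, hδ, one_mul]
  split_ifs
  · rfl
  · rw [mul_assoc]

theorem sh_mul_leftD (hD : D.Normal) {δ : Q} (hδ : δ ∈ D) (x : Q) : Sh D x (δ * x) := by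
  unfold Sh
  have h := hD.conj_mem _ hδ x⁻¹
  rw [inv_inv] at h
  rwa [← mul_assoc]

theorem eps_sh (hD : D ≤ eps.ker) {x y : Q} (h : Sh D x y) : eps x = eps y := by
  have h1 : eps (x⁻¹ * y) = 1 := hD h
  rw [map_mul, map_inv] at h1
  exact inv_mul_eq_one.1 h1

theorem eq_of_rf (hD : D ≤ eps.ker) {α x y : Q} (h : Sh D x y) (h' : rfC eps α x = rfC eps α y) : x = y := by
  unfold rfC at h'
  rw [eps_sh hD h] at h'
  split_ifs at h'
  · exact h'
  · exact mul_right_cancel h'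

end lem

section fam

variable {S : Type} [Fintype S] [DecidableEq S] {Q : Type} [Group Q] [DecidableEq Q] {B : Lb.{0, 0} Q} {a b : B.L}
  {eps : Q →* ℤˣ} {D : Subgroup Q} {z : Q} {k : ℕ} {H : HypC B a b eps D z k} {g : S → Q}
  {inj : Function.Injective g} {R : Type} [Fintype R] {X : ClsW H.up g inj (2 * k) R}

/-- Joined by a rung. -/
def Jr (X : ClsW H.up g inj (2 * k) R) (u u' : S) : Prop :=
  ∃ r, (X.x r = u ∧ X.y r = u') ∨ (X.x r = u' ∧ X.y r = u)

theorem Jr.symm {u u' : S} (h : Jr X u u') : Jr X u' u := by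
  obtain ⟨r, h | h⟩ := h
  · exact ⟨r, Or.inr h⟩
  · exact ⟨r, Or.inl h⟩

variable {s : B.L} {n : ℤ} {M : Set Q} {v₁ v₂ : Q} {wd : R → List B.L} {In : R → Prop} {h : ℕ}

/-- The left multiplication by an element of `D`. -/
theorem jr_act (hX : FamX H g inj X s n M (fun u => Sh D v₁ (g u)) (fun u => Sh D v₂ (g u)) wd In h)
    {δ : Q} (hδ : δ ∈ D) {act : S → S} (hact : ∀ u, g (act u) = δ * g u) {u u' : S} (hj : Jr X u u') :
    Jr X (act u) (act u') := by
  have he : eps δ = 1 := H.leD hδ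
  have hsh : ∀ u, Sh D (g u) (g (act u)) := fun u => by rw [hact]; exact sh_mul_leftD H.nD hδ _
  have hrf : ∀ u, rfC eps (B.q a) (g (act u)) = δ * rfC eps (B.q a) (g u) := fun u => by
    rw [hact, rfC_mul_left he]
  have hcr : ∀ u u', Crs H g s n M (fun u => Sh D v₁ (g u)) (fun u => Sh D v₂ (g u)) u u' →
      Crs H g s n M (fun u => Sh D v₁ (g u)) (fun u => Sh D v₂ (g u)) (act u) (act u') := by
    rintro u u' ⟨h1, h2, i, m, hm, h3⟩
    refine ⟨h1.trans (hsh u), h2.trans (hsh u'), i, m, hm, ?_⟩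
    rw [hrf, hrf, mul_assoc, h3]
    simp only [mul_assoc]
  have key : ∀ r, Jr X (act (X.x r)) (act (X.y r)) := by
    intro r
    by_cases hr : In r
    · obtain ⟨h1, q, hq, h2⟩ := hX.inner r hr
      have hY : Sh D v₁ (g (act (X.x r))) ∨ Sh D v₂ (g (act (X.x r))) := by
        rcases hX.xY r with h3 | h3
        · exact Or.inl (h3.trans (hsh _))
        · exact Or.inr (h3.trans (hsh _))
      obtain ⟨r', hr', h3, h4⟩ := hX.inn (act (X.x r)) hY q hq
      refine ⟨r', Or.inl ⟨h3, ?_⟩⟩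
      apply inj
      have h5 : Sh D (g (X.x r')) (g (X.y r')) := (hX.inner r' hr').1
      rw [h3] at h5
      refine eq_of_rf H.leD (α := B.q a) ?_ ?_
      · exact h5.symm.trans ((hsh _).symm.trans (h1.trans (hsh _)))
      · rw [h4, hrf, hrf, h2, mul_assoc]
    · rcases hX.cross r hr with h1 | h1
      · obtain ⟨r', _, h2 | h2⟩ := hX.crs _ _ (hcr _ _ h1)
        · exact ⟨r', Or.inl h2⟩
        · exact ⟨r', Or.inr h2⟩
      · obtain ⟨r', _, h2 | h2⟩ := hX.crs _ _ (hcr _ _ h1)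
        · exact ⟨r', Or.inr h2⟩
        · exact ⟨r', Or.inl h2⟩
  obtain ⟨r, ⟨h1, h2⟩ | ⟨h1, h2⟩⟩ := hj
  · rw [← h1, ← h2]; exact key r
  · rw [← h1, ← h2]; exact (key r).symm

end fam

/-! ### Abstract puzzles -/

section abs

variable {S R : Type} [DecidableEq S] {P : Puz S R}

theorem connS_of_conn (hC : ∀ v w, Relation.ReflTransGen (fun a b => ∃ r, P.On r a ∧ P.On r b) v w) : P.ConnS := by
  have key : ∀ v w, Relation.ReflTransGen (fun a b => ∃ r, P.On r a ∧ P.On r b) v w → ∀ r r', P.On r v → P.On r' w →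
      Relation.ReflTransGen (fun a b => ∃ v, P.On a v ∧ P.On b v) r r' := by
    intro v w h
    induction h with
    | refl => intro r r' h1 h2; exact Relation.ReflTransGen.single ⟨v, h1, h2⟩
    | @tail b c _ hbc ih =>
      intro r r' h1 h2
      obtain ⟨q, hq1, hq2⟩ := hbc
      exact (ih r q h1 hq1).tail ⟨c, hq2, h2⟩
  intro r r'
  exact key _ _ (hC (P.x r) (P.x r')) r r' (Or.inl rfl) (Or.inl rfl)

/-- The same ends. -/
theorem ends_of_oth {r r' : R} {v : S} (h : P.On r v) (h' : P.On r' v) (e : P.oth r v = P.oth r' v) :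
    (P.x r = P.x r' ∧ P.y r = P.y r') ∨ (P.x r = P.y r' ∧ P.y r = P.x r') := by
  have h1 := P.ne r
  have h2 := P.ne r'
  unfold Puz.oth at e
  unfold Puz.On at h h'
  rcases h with rfl | rfl <;> rcases h' with h' | h'
  · rw [if_pos rfl, if_pos h'] at e
    exact Or.inl ⟨h', e⟩
  · rw [if_pos rfl, if_neg (fun h3 => h2 (h3.symm.trans h'))] at e
    exact Or.inr ⟨h', e⟩
  · rw [if_neg h1.symm, if_pos h'] at e
    exact Or.inr ⟨e, h'⟩
  · rw [if_neg h1.symm, if_neg (fun h3 => h2 (h3.symm.trans h'))] at e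
    exact Or.inl ⟨e, h'⟩

end abs

/-! ### The puzzle of a component -/

section comp

variable {Q : Type} [Group Q] [DecidableEq Q] {B : Lb.{0, 0} Q} {a b : B.L}
  {eps : Q →* ℤˣ} {D : Subgroup Q} {z : Q} {k : ℕ} {H : HypC B a b eps D z k} {F : Finset Q}
  (T : Pth H F) (c : T.C) (A : {v // v ∈ F} → Prop)

/-- `A` is closed under the rungs of the family `c`. -/
structure CloA : Prop where
  iff : ∀ r, A ((T.X c).x r) ↔ A ((T.X c).y r)
  clo : (T.X c).Clo A

variable {T c A} (hc : CloA T c A)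

include hc

theorem CloA.fw : T.fw.Clo A fun r => r.1 = c ∧ A ((T.X r.1).x r.2) := by
  refine FamW.ofCls_clo (A := A) (J := fun c' => c' = c) (Nat.mul_pos Nat.two_pos H.kpos) (perC H) T.X ?_
  rintro c' rfl
  exact hc.clo

/-- The puzzle of `A`. -/
noncomputable def CloA.puz : Puz {v // A v} {r : T.Rc c // A ((T.X c).x r)} where
  x r := ⟨(T.X c).x r, r.2⟩
  y r := ⟨(T.X c).y r, (hc.iff r).1 r.2⟩
  ne r h := T.P.ne ⟨c, r.1⟩ (congrArg Subtype.val h)
  tau := (T.X c).tau.subtypeEquiv fun r => hc.clo.tau_iff r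
  T r := (T.P.T ⟨c, r.1⟩).subtypeEquiv fun s => hc.fw.iff_T s ⟨rfl, r.2⟩
  T_ends r := by
    rcases T.P.T_ends ⟨c, r.1⟩ with ⟨h1, h2⟩ | ⟨h1, h2⟩
    · exact Or.inl ⟨Subtype.ext h1, Subtype.ext h2⟩
    · exact Or.inr ⟨Subtype.ext h1, Subtype.ext h2⟩

/-- It is a part of the big puzzle. -/
noncomputable def CloA.sub : SQ2.V.Sub T.P hc.puz where
  iS := Subtype.val
  iR r := ⟨c, r.1⟩
  inj := Subtype.val_injective
  x _ := rfl
  y _ := rfl
  tau _ := rfl
  T _ _ := rfl
  T_out r s hs := hc.fw.out ⟨rfl, r.2⟩ fun h => hs ⟨⟨s, h⟩, rfl⟩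

end comp

/-! ### Row COMPX -/

section row

variable {Q : Type} [Group Q] [DecidableEq Q] {B : Lb.{0, 0} Q} {a b : B.L}
  {eps : Q →* ℤˣ} {D : Subgroup Q} {z : Q} {k : ℕ} {H : HypC B a b eps D z k} {F : Finset Q}
  {T : Pth H F} {c : T.C}

/-- A component is closed. -/
theorem c69_comp_iff {J : T.C → Prop} {v₀ : {v // v ∈ F}} {A : {v // v ∈ F} → Prop} (hA : T.IsComp J v₀ A) (hJ : J c)
    (r : T.Rc c) : A ((T.X c).x r) ↔ A ((T.X c).y r) := by
  rw [hA, hA]
  constructor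
  · exact fun h => h.tail ⟨c, hJ, r, Or.inl ⟨rfl, rfl⟩⟩
  · exact fun h => h.tail ⟨c, hJ, r, Or.inr ⟨rfl, rfl⟩⟩

variable {s : B.L} {n : ℤ} {M : Set Q} {v y : {v // v ∈ F}} {h : ℕ}

/-- The sheets have at most `k` strands. -/
theorem c69_card_sheet (H : HypC B a b eps D z k) (v : Q) {A : {v // v ∈ F} → Prop}
    (hA : ∀ u, A u → Sh D v (u : Q)) : Nat.card {u // A u} ≤ k := by
  have : Finite Q := H.fin
  refine le_trans (Nat.card_le_card_of_injective (β := D) (fun u => ⟨v⁻¹ * (u.1 : Q), hA u.1 u.2⟩) ?_)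
    (Nat.le_of_dvd H.kpos H.card)
  intro u u' huu
  have h1 : v⁻¹ * ((u.1 : {v // v ∈ F}) : Q) = v⁻¹ * (u'.1 : Q) := congrArg Subtype.val huu
  exact Subtype.ext (Subtype.ext (mul_left_cancel h1))

variable (hF : ∀ s ∈ F, ∀ δ ∈ D, s * δ ∈ F)
  (hX : FamX H _ _ (T.X c) s n M (fun u => Sh D (v : Q) (u : Q)) (fun u => Sh D (y : Q) (u : Q)) (T.wd c) (T.In c) h)

include hX

theorem cloX {A : {v // v ∈ F} → Prop} (hA : ∀ r, A ((T.X c).x r) ↔ A ((T.X c).y r)) : CloA T c A :=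
  ⟨hA, hX.clo A hA⟩

/-- Everything in a component is on the two sheets. -/
theorem comp_on {v₀ : {v // v ∈ F}} {A : {v // v ∈ F} → Prop} (hA : T.IsComp (fun c' => c' = c) v₀ A)
    (hv₀ : Sh D (v : Q) (v₀ : Q) ∨ Sh D (y : Q) (v₀ : Q)) (u : {v // v ∈ F}) (hu : A u) :
    Sh D (v : Q) (u : Q) ∨ Sh D (y : Q) (u : Q) := by
  rw [hA] at hu
  induction hu with
  | refl => exact hv₀
  | tail _ hs ih =>
    obtain ⟨c', rfl, r, ⟨h1, h2⟩ | ⟨h1, h2⟩⟩ := hs
    · rw [← h2]; exact hX.yY r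
    · rw [← h1]; exact hX.xY r

/-- The rungs at a strand: inner and cross rungs. -/
theorem degX : ∃ d : ℕ, 0 < d ∧ ∀ u : {v // v ∈ F}, Sh D (v : Q) (u : Q) ∨ Sh D (y : Q) (u : Q) →
    {r | T.In c r ∧ (u = (T.X c).x r ∨ u = (T.X c).y r)}.ncard = d ∧
      {r | ¬ T.In c r ∧ (u = (T.X c).x r ∨ u = (T.X c).y r)}.ncard = d := hX.deg

end row

/-- COMPX. -/
theorem compX : CompXS := by
  intro Q _ _ B a b eps D z k H F T hF c s n M v y h hX v₀ A hA hv₀ p hp hpk
  have hiff : ∀ r, A ((T.X c).x r) ↔ A ((T.X c).y r) := c69_comp_iff hA rfl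
  have hc : CloA T c A := cloX hX hiff
  have hon : ∀ u, A u → Sh D (v : Q) (u : Q) ∨ Sh D (y : Q) (u : Q) := comp_on hX hA hv₀
  have hFin : Finite Q := H.fin
  refine ⟨?_, ?_⟩
  · -- the number of strands
    have h1 := c69_card_sheet (F := F) H (v : Q) (A := fun u => Sh D (v : Q) (u : Q)) fun _ h => h
    have h2 := c69_card_sheet (F := F) H (y : Q) (A := fun u => Sh D (y : Q) (u : Q)) fun _ h => h
    have h3 : Nat.card {u // A u} ≤ Nat.card {u : {v // v ∈ F} // Sh D (v : Q) (u : Q)} +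
        Nat.card {u : {v // v ∈ F} // Sh D (y : Q) (u : Q)} := by
      rw [← Nat.card_sum]
      classical
      refine Nat.card_le_card_of_injective (fun u : {u // A u} =>
        if h : Sh D (v : Q) ((u.1 : {v // v ∈ F}) : Q) then Sum.inl ⟨u.1, h⟩
        else Sum.inr ⟨u.1, (hon u.1 u.2).resolve_left h⟩) ?_
      intro u u' huu
      by_cases h1 : Sh D (v : Q) ((u.1 : {v // v ∈ F}) : Q) <;>
        by_cases h2 : Sh D (v : Q) ((u'.1 : {v // v ∈ F}) : Q) <;>
        simp only [h1, h2, dite_true, dite_false] at huu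
      · injection huu with h3
        injection h3 with h4
        exact Subtype.ext h4
      · cases huu
      · cases huu
      · injection huu with h3
        injection h3 with h4
        exact Subtype.ext h4
    omega
  obtain ⟨d, hd, hdeg⟩ := degX hX
  set Pb := hc.puz with hPb
  have hOn : ∀ (r : {r : T.Rc c // A ((T.X c).x r)}) (u : {v // A v}), Pb.On r u ↔
      (u.1 = (T.X c).x r.1 ∨ u.1 = (T.X c).y r.1) := by
    intro r u
    constructor
    · rintro (h1 | h1)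
      · exact Or.inl (congrArg Subtype.val h1)
      · exact Or.inr (congrArg Subtype.val h1)
    · rintro (h1 | h1)
      · exact Or.inl (Subtype.ext h1)
      · exact Or.inr (Subtype.ext h1)
  have hAx : ∀ (r : T.Rc c) (u : {v // v ∈ F}), A u → (u = (T.X c).x r ∨ u = (T.X c).y r) → A ((T.X c).x r) := by
    rintro r u hu (h1 | h1)
    · rw [← h1]; exact hu
    · rw [hiff, ← h1]; exact hu
  -- degrees in the component
  have hncard : ∀ (K : T.Rc c → Prop) (u : {v // A v}),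
      {r : {r : T.Rc c // A ((T.X c).x r)} | K r.1 ∧ Pb.On r u}.ncard =
        {r | K r ∧ (u.1 = (T.X c).x r ∨ u.1 = (T.X c).y r)}.ncard := by
    intro K u
    rw [← Set.ncard_image_of_injective _ Subtype.val_injective]
    congr 1
    ext r
    constructor
    · rintro ⟨r', ⟨h1, h2⟩, rfl⟩
      exact ⟨h1, (hOn r' u).1 h2⟩
    · rintro ⟨h1, h2⟩
      exact ⟨⟨r, hAx r u.1 u.2 h2⟩, ⟨h1, (hOn _ u).2 h2⟩, rfl⟩
  have hIn : ∀ u : {v // A v}, ∃ r : {r : T.Rc c // A ((T.X c).x r)}, T.In c r.1 ∧ Pb.On r u := by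
    intro u
    have h1 := (hdeg u.1 (hon u.1 u.2)).1
    rw [← hncard] at h1
    have h2 : {r : {r : T.Rc c // A ((T.X c).x r)} | T.In c r.1 ∧ Pb.On r u}.Nonempty := by
      rw [Set.nonempty_iff_ne_empty]
      intro h3
      rw [h3, Set.ncard_empty] at h1
      omega
    exact h2
  have hCr : ∀ u : {v // A v}, ∃ r : {r : T.Rc c // A ((T.X c).x r)}, ¬ T.In c r.1 ∧ Pb.On r u := by
    intro u
    have h1 := (hdeg u.1 (hon u.1 u.2)).2
    rw [← hncard] at h1
    have h2 : {r : {r : T.Rc c // A ((T.X c).x r)} | ¬ T.In c r.1 ∧ Pb.On r u}.Nonempty := by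
      rw [Set.nonempty_iff_ne_empty]
      intro h3
      rw [h3, Set.ncard_empty] at h1
      omega
    exact h2
  -- inner and cross rungs are not parallel
  have hpar : ∀ (r r' : {r : T.Rc c // A ((T.X c).x r)}) (u : {v // A v}), T.In c r.1 → ¬ T.In c r'.1 →
      Pb.On r u → Pb.On r' u → Pb.oth r u ≠ Pb.oth r' u := by
    intro r r' u h1 h2 h3 h4 h5
    apply hX.par r.1 r'.1 h1 h2
    rcases ends_of_oth h3 h4 h5 with ⟨h6, h7⟩ | ⟨h6, h7⟩
    · exact Or.inl ⟨congrArg Subtype.val h6, congrArg Subtype.val h7⟩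
    · exact Or.inr ⟨congrArg Subtype.val h6, congrArg Subtype.val h7⟩
  have hv₀A : A v₀ := (hA v₀).2 Relation.ReflTransGen.refl
  -- connectedness
  have hCv : ∀ u : {v // A v}, Relation.ReflTransGen (fun a b => ∃ r, Pb.On r a ∧ Pb.On r b) ⟨v₀, hv₀A⟩ u := by
    have key : ∀ u, Relation.ReflTransGen (T.Jn fun c' => c' = c) v₀ u → ∀ hu : A u,
        Relation.ReflTransGen (fun a b => ∃ r, Pb.On r a ∧ Pb.On r b) ⟨v₀, hv₀A⟩ ⟨u, hu⟩ := by
      intro u hu
      induction hu with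
      | refl => intro _; exact Relation.ReflTransGen.refl
      | @tail b' c' hb hbc ih =>
        intro hu
        have hb' : A b' := (hA b').2 hb
        refine (ih hb').tail ?_
        obtain ⟨c'', rfl, r, h1⟩ := hbc
        rcases h1 with ⟨h1, h2⟩ | ⟨h1, h2⟩
        · refine ⟨⟨r, by rw [h1]; exact hb'⟩, (hOn _ _).2 (Or.inl h1.symm), (hOn _ _).2 (Or.inr h2.symm)⟩
        · refine ⟨⟨r, by rw [h1]; exact hu⟩, (hOn _ _).2 (Or.inr h2.symm), (hOn _ _).2 (Or.inl h1.symm)⟩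
    intro u
    exact key u.1 ((hA u.1).1 u.2) u.2
  have hsymm : ∀ u u' : {v // A v}, Relation.ReflTransGen (fun a b => ∃ r, Pb.On r a ∧ Pb.On r b) u u' →
      Relation.ReflTransGen (fun a b => ∃ r, Pb.On r a ∧ Pb.On r b) u' u := by
    intro u u' huu
    induction huu with
    | refl => exact Relation.ReflTransGen.refl
    | tail _ hs ih =>
      obtain ⟨r, h1, h2⟩ := hs
      exact Relation.ReflTransGen.head ⟨r, h2, h1⟩ ih
  have hC : ∀ u u' : {v // A v}, Relation.ReflTransGen (fun a b => ∃ r, Pb.On r a ∧ Pb.On r b) u u' :=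
    fun u u' => (hsymm _ _ (hCv u)).trans (hCv u')
  classical
  have hfr : Fintype {r : T.Rc c // A ((T.X c).x r)} := Fintype.ofFinite _
  have hfs : Fintype {v // A v} := Fintype.ofFinite _
  have hS : SCon Pb := by
    refine ret2 (K := fun r => T.In c r.1) (fun r => hX.tin r.1) hpar hd hd ?_ ?_ hC
    · intro u
      rw [hncard (T.In c) u]
      exact (hdeg u.1 (hon u.1 u.2)).1
    · intro u
      have h1 := hncard (fun r => ¬ T.In c r) u
      rw [h1]
      exact (hdeg u.1 (hon u.1 u.2)).2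
  have hCS : Pb.ConnS := connS_of_conn hC
  -- three strands
  have h3 : 3 ≤ Fintype.card {v // A v} := by
    obtain ⟨r, hr1, hr2⟩ := hIn ⟨v₀, hv₀A⟩
    obtain ⟨r', hr1', hr2'⟩ := hCr ⟨v₀, hv₀A⟩
    have h4 := hpar r r' _ hr1 hr1' hr2 hr2'
    have h5 := SQ2.V.AvoidOf.oth_ne hr2
    have h6 := SQ2.V.AvoidOf.oth_ne hr2'
    have h7 : ({⟨v₀, hv₀A⟩, Pb.oth r ⟨v₀, hv₀A⟩, Pb.oth r' ⟨v₀, hv₀A⟩} : Finset {v // A v}).card = 3 :=
      Finset.card_eq_three.2 ⟨_, _, _, h5.symm, h6.symm, h4, rfl⟩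
    rw [← h7]
    exact Finset.card_le_univ _
  -- automorphisms without fixed points
  have hfree : FreeNb Pb := by
    intro u
    obtain ⟨r, hr1, hr2⟩ := hIn u
    set u' := Pb.oth r u with hu'
    have huu' : Sh D ((u.1 : {v // v ∈ F}) : Q) (u'.1 : Q) := by
      have h4 := (hX.inner r.1 hr1).1
      rcases hr2 with h5 | h5
      · have h6 : u' = Pb.y r := by rw [hu', h5, SQ2.V.AvoidOf.oth_x]
        rw [h5, h6]
        exact h4
      · have h6 : u' = Pb.x r := by rw [hu', h5, SQ2.V.AvoidOf.oth_y]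
        rw [h5, h6]
        exact h4.symm
    set δ : Q := (u'.1 : Q) * ((u.1 : {v // v ∈ F}) : Q)⁻¹ with hδ'
    have hδ : δ ∈ D := by
      have h4 := H.nD.conj_mem _ huu' ((u.1 : {v // v ∈ F}) : Q)
      rwa [mul_inv_cancel_left] at h4
    have hmem : ∀ δ' ∈ D, ∀ w : {v // v ∈ F}, δ' * (w : Q) ∈ F := by
      intro δ' hδ' w
      have h4 := H.nD.conj_mem _ hδ' (w : Q)⁻¹
      rw [inv_inv] at h4
      have h5 := hF _ w.2 _ h4
      rwa [mul_assoc, mul_inv_cancel_left] at h5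
    have hJN : ∀ w w' : {v // A v}, SQ2.V.AvoidOf.N Pb w w' ↔ Jr (T.X c) w.1 w'.1 := by
      intro w w'
      constructor
      · rintro ⟨q, ⟨h1, h2⟩ | ⟨h1, h2⟩⟩
        · exact ⟨q.1, Or.inl ⟨congrArg Subtype.val h1, congrArg Subtype.val h2⟩⟩
        · exact ⟨q.1, Or.inr ⟨congrArg Subtype.val h1, congrArg Subtype.val h2⟩⟩
      · rintro ⟨q, ⟨h1, h2⟩ | ⟨h1, h2⟩⟩
        · exact ⟨⟨q, by rw [h1]; exact w.2⟩, Or.inl ⟨Subtype.ext h1, Subtype.ext h2⟩⟩
        · exact ⟨⟨q, by rw [h1]; exact w'.2⟩, Or.inr ⟨Subtype.ext h1, Subtype.ext h2⟩⟩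
    have hJA : ∀ w w' : {v // v ∈ F}, Jr (T.X c) w w' → A w → A w' := by
      rintro w w' ⟨q, ⟨h1, h2⟩ | ⟨h1, h2⟩⟩ hw
      · rw [← h2, ← hiff, h1]; exact hw
      · rw [← h1, hiff, h2]; exact hw
    -- the multiplication by `δ`
    let act : {v // v ∈ F} → {v // v ∈ F} := fun w => ⟨δ * (w : Q), hmem δ hδ w⟩
    let act' : {v // v ∈ F} → {v // v ∈ F} := fun w => ⟨δ⁻¹ * (w : Q), hmem δ⁻¹ (D.inv_mem hδ) w⟩
    have hact' : ∀ w, act' (act w) = w := fun w => Subtype.ext (inv_mul_cancel_left δ (w : Q))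
    have hj : ∀ {w w'}, Jr (T.X c) w w' → Jr (T.X c) (act w) (act w') := fun hw => jr_act hX hδ (fun _ => rfl) hw
    have hj' : ∀ {w w'}, Jr (T.X c) w w' → Jr (T.X c) (act' w) (act' w') := fun hw =>
      jr_act hX (D.inv_mem hδ) (fun _ => rfl) hw
    have hactu : act u.1 = u'.1 := Subtype.ext (inv_mul_cancel_right _ _)
    have hAact : ∀ w : {v // A v}, A (act w.1) := by
      intro w
      have key : ∀ w : {v // A v}, Relation.ReflTransGen (fun a b => ∃ r, Pb.On r a ∧ Pb.On r b) u w →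
          A (act w.1) := by
        intro w hw
        induction hw with
        | refl => rw [hactu]; exact u'.2
        | @tail b' c' _ hbc ih =>
          obtain ⟨q, h1, h2⟩ := hbc
          rcases (SQ2.V.AvoidOf.on_iff_oth h1).1 h2 with h3 | h3
          · rw [h3]; exact ih
          · have h4 : SQ2.V.AvoidOf.N Pb b' c' := by rw [h3]; exact SQ2.V.AvoidOf.N_of_on h1
            exact hJA _ _ (hj ((hJN _ _).1 h4)) ih
      exact key w (hC u w)
    let hm : {v // A v} → {v // A v} := fun w => ⟨act w.1, hAact w⟩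
    have hminj : Function.Injective hm := by
      intro w w' hw
      have h4 : act w.1 = act w'.1 := congrArg Subtype.val hw
      have h5 := congrArg act' h4
      rw [hact', hact'] at h5
      exact Subtype.ext h5
    refine ⟨Equiv.ofBijective hm (Finite.injective_iff_bijective.1 hminj), ?_, ?_, ?_⟩
    · intro w w'
      show SQ2.V.AvoidOf.N Pb (hm w) (hm w') ↔ _
      rw [hJN, hJN]
      constructor
      · intro h4
        have h5 := hj' h4
        rw [hact', hact'] at h5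
        exact h5
      · exact fun h4 => hj h4
    · intro w hw
      have h4 : act w.1 = w.1 := congrArg Subtype.val hw
      have h5 : δ * ((w.1 : {v // v ∈ F}) : Q) = (w.1 : Q) := congrArg Subtype.val h4
      have h6 : δ = 1 := mul_eq_right.1 h5
      have h7 : u'.1 = u.1 := by
        rw [← hactu]
        refine Subtype.ext ?_
        show δ * ((u.1 : {v // v ∈ F}) : Q) = _
        rw [h6, one_mul]
      exact SQ2.V.AvoidOf.oth_ne hr2 (Subtype.ext h7)
    · show SQ2.V.AvoidOf.N Pb u (hm u)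
      have h4 : hm u = u' := Subtype.ext hactu
      rw [h4]
      exact SQ2.V.AvoidOf.N_of_on hr2
  have hK : Pb.HypK fun _ => True :=
    SQ2.V.Puz.HypK.of_scon hS (twoN_of_free hfree hCS h3) (noCut_of_free hfree hCS) hCS
  refine ⟨Pb, hc.sub, hfr, fun _ => rfl, fun _ => rfl, hK, ?_⟩
  -- the weights
  obtain ⟨m, wt, hm0, hmk, hwt, hsum⟩ := hX.wt
  refine ⟨fun r => (wt r.1 : ZMod p), (m : ZMod p), ?_, ?_⟩
  · intro h4
    rw [ZMod.natCast_eq_zero_iff] at h4
    have := Nat.le_of_dvd hm0 h4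
    omega
  · intro u
    rw [← hsum u.1 (hon u.1 u.2)]
    push_cast
    refine Fintype.sum_of_injective Subtype.val Subtype.val_injective _ _ ?_ ?_
    · intro r hr
      rw [if_neg]
      intro h4
      exact hr ⟨⟨r, hAx r u.1 u.2 h4⟩, rfl⟩
    · intro r
      exact if_congr (hOn r u) rfl rfl

end Pool.Agent.Lib.MP_688fd0_co.SQ4.CV
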