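import Pool.Agent.Lib.MP_688fd0_co.SQ4.IfaceV2
import Pool.Agent.Lib.MP_688fd0_co.SQ4.E.FlipP
import Pool.Agent.Lib.MP_688fd0_co.SQ4.H69.CompX
import Pool.Agent.Lib.MP_688fd0_co.SQ4.H95.RetU

/-!
Type C1, WORLD: the puzzle of a component of several families with cross rungs.
-/

set_option autoImplicit false
set_option linter.unusedSectionVars false

namespace Pool.Agent.Lib.MP_688fd0_co.SQ4.CV

open Pool.Agent.Lib.MP_688fd0_co.OSF Pool.Agent.Lib.MP_688fd0_co.SQ2 Pool.Agent.Lib.MP_688fd0_co.SQ3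
open Pool.Agent.Lib.MP_688fd0_co.SQ4
open SQ2.V (Puz)
open SQ2.V.Puz (St)

/-- Families with two kinds of rungs on a connected set of strands: strong connectivity. -/
theorem scon_of_hyp {S R C : Type} [Fintype S] [DecidableEq S] [Fintype R] {P : Puz S R} {fam : R → C} {In : R → Prop}
    {d₁ d₂ : C → ℕ} (H : RetU.Hyp P fam In d₁ d₂)
    (hC : ∀ v w, Relation.ReflTransGen (fun a b => ∃ r, P.On r a ∧ P.On r b) v w) : SCon P := by
  intro r r'
  have hX : Closed P (fun s => Relation.ReflTransGen (Nx P) r s) := fun a b v h h' => h.tail ⟨b, v, h', rfl⟩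
  exact RetU.conn_all H hX (q₀ := r) (v := P.x r) Relation.ReflTransGen.refl (Or.inl rfl) (hC _ _) r' (Or.inl rfl)

open Classical in
/-- COMPJ: the component of several families with cross rungs. -/
def CompJS : Prop :=
  ∀ (Q : Type) [Group Q] [DecidableEq Q] (B : Lb.{0, 0} Q) (a b : B.L) (eps : Q →* ℤˣ) (D : Subgroup Q) (z : Q) (k : ℕ)
    (H : HypC B a b eps D z k) (F : Finset Q) (T : Pth H F) (x s₁ s₂ : Q) (r h : ℕ) (hT : T.Ok x s₁ s₂ r h),
    (∀ s ∈ F, ∀ δ ∈ D, s * δ ∈ F) →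
    ∀ J : T.C → Prop, (∀ c, J c → ∃ (s : B.L) (n : ℤ) (M : Set Q) (v y : {v // v ∈ F}) (h : ℕ),
      FamX H _ _ (T.X c) s n M (fun u => Sh D (v : Q) (u : Q)) (fun u => Sh D (y : Q) (u : Q)) (T.wd c) (T.In c) h) →
    ∀ (v₀ : {v // v ∈ F}) (A : {v // v ∈ F} → Prop) (hA : T.IsComp J v₀ A), (∃ c, J c ∧ T.Y c v₀) →
      ∀ (p : ℕ) (_ : Fact p.Prime), 4 * k < p →
        (T.clo hT hA.cmp).puz.HypK (fun _ => True) ∧ (T.clo hT hA.cmp).puz.Wt (ZMod p)

/-- COMPJ for any instance. -/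
theorem compJ' {Q : Type} [Group Q] [DecidableEq Q] {B : Lb.{0, 0} Q} {a b : B.L} {eps : Q →* ℤˣ} {D : Subgroup Q}
    {z : Q} {k : ℕ} {H : HypC B a b eps D z k} {F : Finset Q} {T : Pth H F} (hF : ∀ s ∈ F, ∀ δ ∈ D, s * δ ∈ F)
    {J : T.C → Prop} (hX : ∀ c, J c → ∃ (s : B.L) (n : ℤ) (M : Set Q) (v y : {v // v ∈ F}) (h : ℕ),
      FamX H _ _ (T.X c) s n M (fun u => Sh D (v : Q) (u : Q)) (fun u => Sh D (y : Q) (u : Q)) (T.wd c) (T.In c) h)
    {v₀ : {v // v ∈ F}} {A : {v // v ∈ F} → Prop} (hA : T.IsComp J v₀ A)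
    (hv₀ : ∃ c, J c ∧ ∃ r, v₀ = (T.X c).x r ∨ v₀ = (T.X c).y r) (hclo : T.fw.Clo A (T.rg J A)) :
    hclo.puz.HypK (fun _ => True) ∧ ∀ (_ : Fintype {q // T.rg J A q}) (p : ℕ) (_ : Fact p.Prime), 4 * k < p →
      hclo.puz.Wt (ZMod p) := by
  classical
  have hFin : Finite Q := H.fin
  have hneF : Nonempty {v // v ∈ F} := ⟨v₀⟩
  choose! s n M v y h hX using hX
  have hiff : ∀ c, J c → ∀ r, A ((T.X c).x r) ↔ A ((T.X c).y r) := fun c hc => c69_comp_iff hA hc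
  -- the sheets of the family
  set On' : T.C → {v // v ∈ F} → Prop := fun c u => Sh D (v c : Q) (u : Q) ∨ Sh D (y c : Q) (u : Q) with hOn'
  have hYr : ∀ c, J c → ∀ (r : T.Rc c) (u : {v // v ∈ F}), u = (T.X c).x r ∨ u = (T.X c).y r → On' c u := by
    rintro c hc r u (rfl | rfl)
    · exact (hX c hc).xY r
    · exact (hX c hc).yY r
  have hon : ∀ u, A u → ∃ c, J c ∧ On' c u := by
    intro u hu
    rw [hA] at hu
    induction hu with
    | refl =>
      obtain ⟨c, hc, r, hr⟩ := hv₀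
      exact ⟨c, hc, hYr c hc r _ hr⟩
    | tail _ hs ih =>
      obtain ⟨c, hc, r, ⟨h1, h2⟩ | ⟨h1, h2⟩⟩ := hs
      · exact ⟨c, hc, hYr c hc r _ (Or.inr h2.symm)⟩
      · exact ⟨c, hc, hYr c hc r _ (Or.inl h1.symm)⟩
  have hdeg := fun c (hc : J c) => (hX c hc).deg
  choose! d hd0 hdeg using hdeg
  set Pb := hclo.puz with hPb
  have hOnR : ∀ (r : {q // T.rg J A q}) (u : {v // A v}), Pb.On r u ↔
      (u.1 = (T.X r.1.1).x r.1.2 ∨ u.1 = (T.X r.1.1).y r.1.2) := by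
    intro r u
    constructor
    · rintro (h1 | h1)
      · exact Or.inl (congrArg Subtype.val h1)
      · exact Or.inr (congrArg Subtype.val h1)
    · rintro (h1 | h1)
      · exact Or.inl (Subtype.ext h1)
      · exact Or.inr (Subtype.ext h1)
  have hAx : ∀ c, J c → ∀ (r : T.Rc c) (u : {v // v ∈ F}), A u → (u = (T.X c).x r ∨ u = (T.X c).y r) →
      A ((T.X c).x r) := by
    rintro c hc r u hu (h1 | h1)
    · rw [← h1]; exact hu
    · rw [hiff c hc, ← h1]; exact hu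
  -- degrees in the component
  have hncard : ∀ c, J c → ∀ (K : T.Rc c → Prop) (K' : {q // T.rg J A q} → Prop) (u : {v // A v}),
      (∀ r (hr : T.rg J A ⟨c, r⟩), K' ⟨⟨c, r⟩, hr⟩ ↔ K r) →
      {r : {q // T.rg J A q} | (r.1.1 = c ∧ K' r) ∧ Pb.On r u}.ncard =
        {r | K r ∧ (u.1 = (T.X c).x r ∨ u.1 = (T.X c).y r)}.ncard := by
    intro c hc K K' u hK
    have h1 : Subtype.val '' {r : {q // T.rg J A q} | (r.1.1 = c ∧ K' r) ∧ Pb.On r u} =
        (Sigma.mk c) '' {r | K r ∧ (u.1 = (T.X c).x r ∨ u.1 = (T.X c).y r)} := by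
      ext ⟨c', r⟩
      constructor
      · rintro ⟨r', ⟨⟨h1, h2⟩, h3⟩, h4⟩
        obtain ⟨⟨c'', r''⟩, hr''⟩ := r'
        obtain rfl : c'' = c := h1
        have h5 : (⟨c'', r''⟩ : Σ c, T.Rc c) = ⟨c', r⟩ := h4
        rw [← h5]
        exact ⟨r'', ⟨(hK _ _).1 h2, (hOnR _ u).1 h3⟩, rfl⟩
      · rintro ⟨r', ⟨h1, h2⟩, h3⟩
        rw [← h3]
        exact ⟨⟨⟨c, r'⟩, hc, hAx c hc r' u.1 u.2 h2⟩, ⟨⟨rfl, (hK _ _).2 h1⟩, (hOnR _ u).2 h2⟩, rfl⟩
    rw [← Set.ncard_image_of_injective _ Subtype.val_injective, h1,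
      Set.ncard_image_of_injective _ sigma_mk_injective]
  have hH : RetU.Hyp Pb (fun r => r.1.1) (fun r => T.In r.1.1 r.1.2) d d := by
    refine ⟨fun _ => rfl, fun r => (hX r.1.1 r.2.1).tin r.1.2, ?_, fun r => hd0 _ r.2.1, fun r => hd0 _ r.2.1,
      ?_, ?_, ?_⟩
    · rintro c A' hA' ⟨⟨c', r⟩, hr⟩ hc hr'
      obtain rfl : c' = c := hc
      have h1 : ∀ r' : T.Rc c', (∃ h1 : A ((T.X c').x r'), A' ⟨_, h1⟩) ↔ (∃ h1 : A ((T.X c').y r'), A' ⟨_, h1⟩) := by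
        intro r'
        constructor
        · rintro ⟨h1, h2⟩
          exact ⟨(hiff c' hr.1 r').1 h1, (hA' ⟨⟨c', r'⟩, hr.1, h1⟩ rfl).1 h2⟩
        · rintro ⟨h1, h2⟩
          have h3 := (hiff c' hr.1 r').2 h1
          exact ⟨h3, (hA' ⟨⟨c', r'⟩, hr.1, h3⟩ rfl).2 h2⟩
      obtain ⟨h2, h3⟩ := ((hX c' hr.1).clo (fun w => ∃ h1 : A w, A' ⟨w, h1⟩) h1).tau r ⟨hr.2, hr'⟩
      exact h3
    · rintro ⟨⟨c, r⟩, hr⟩ u hu
      rw [hncard c hr.1 (T.In c) (fun q => T.In q.1.1 q.1.2) u fun _ _ => Iff.rfl]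
      exact (hdeg c hr.1 u.1 (hYr c hr.1 r _ ((hOnR _ u).1 hu))).1
    · rintro ⟨⟨c, r⟩, hr⟩ u hu
      rw [hncard c hr.1 (fun r => ¬ T.In c r) (fun q => ¬ T.In q.1.1 q.1.2) u fun _ _ => Iff.rfl]
      exact (hdeg c hr.1 u.1 (hYr c hr.1 r _ ((hOnR _ u).1 hu))).2
    · rintro ⟨⟨c, r⟩, hr⟩ ⟨⟨c', q⟩, hq⟩ u hc h1 h2 h3 h4 h5
      obtain rfl : c' = c := hc
      apply (hX c' hr.1).par r q h1 h2
      rcases ends_of_oth h3 h4 h5 with ⟨h6, h7⟩ | ⟨h6, h7⟩
      · exact Or.inl ⟨congrArg Subtype.val h6, congrArg Subtype.val h7⟩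
      · exact Or.inr ⟨congrArg Subtype.val h6, congrArg Subtype.val h7⟩
  have hv₀A : A v₀ := (hA v₀).2 Relation.ReflTransGen.refl
  -- connectedness
  have hCv : ∀ u : {v // A v}, Relation.ReflTransGen (fun a b => ∃ r, Pb.On r a ∧ Pb.On r b) ⟨v₀, hv₀A⟩ u := by
    have key : ∀ u, Relation.ReflTransGen (T.Jn J) v₀ u → ∀ hu : A u,
        Relation.ReflTransGen (fun a b => ∃ r, Pb.On r a ∧ Pb.On r b) ⟨v₀, hv₀A⟩ ⟨u, hu⟩ := by
      intro u hu
      induction hu with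
      | refl => intro _; exact Relation.ReflTransGen.refl
      | @tail b' c' hb hbc ih =>
        intro hu
        have hb' : A b' := (hA b').2 hb
        refine (ih hb').tail ?_
        obtain ⟨c, hc, r, h1⟩ := hbc
        rcases h1 with ⟨h1, h2⟩ | ⟨h1, h2⟩
        · refine ⟨⟨⟨c, r⟩, hc, by show A ((T.X c).x r); rw [h1]; exact hb'⟩, (hOnR _ _).2 (Or.inl h1.symm),
            (hOnR _ _).2 (Or.inr h2.symm)⟩
        · refine ⟨⟨⟨c, r⟩, hc, by show A ((T.X c).x r); rw [h1]; exact hu⟩, (hOnR _ _).2 (Or.inr h2.symm),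
            (hOnR _ _).2 (Or.inl h1.symm)⟩
    intro u
    exact key u.1 ((hA u.1).1 u.2) u.2
  have hsymm : ∀ u u' : {v // A v}, Relation.ReflTransGen (fun a b => ∃ r, Pb.On r a ∧ Pb.On r b) u u' →
      Relation.ReflTransGen (fun a b => ∃ r, Pb.On r a ∧ Pb.On r b) u' u := by
    intro u u' huu
    induction huu with
    | refl => exact Relation.ReflTransGen.refl
    | tail _ hs ih =>
      obtain ⟨r, h1, h2⟩ := hs
      exact Relation.ReflTransGen.head ⟨r, h2, h1⟩ ih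
  have hC : ∀ u u' : {v // A v}, Relation.ReflTransGen (fun a b => ∃ r, Pb.On r a ∧ Pb.On r b) u u' :=
    fun u u' => (hsymm _ _ (hCv u)).trans (hCv u')
  have hS : SCon Pb := scon_of_hyp hH hC
  have hCS : Pb.ConnS := connS_of_conn hC
  -- inner and cross rungs at every strand
  have hIn : ∀ u : {v // A v}, ∃ r : {q // T.rg J A q}, T.In r.1.1 r.1.2 ∧ Pb.On r u ∧
      ∃ r' : {q // T.rg J A q}, ¬ T.In r'.1.1 r'.1.2 ∧ Pb.On r' u ∧ r'.1.1 = r.1.1 := by
    intro u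
    obtain ⟨c, hc, hcu⟩ := hon u.1 u.2
    have h1 := hdeg c hc u.1 hcu
    have h0 := hd0 c hc
    have h2 : {r | T.In c r ∧ (u.1 = (T.X c).x r ∨ u.1 = (T.X c).y r)}.Nonempty := by
      rw [Set.nonempty_iff_ne_empty]
      intro h3
      have h4 := h1.1
      rw [h3, Set.ncard_empty] at h4
      omega
    have h2' : {r | ¬ T.In c r ∧ (u.1 = (T.X c).x r ∨ u.1 = (T.X c).y r)}.Nonempty := by
      rw [Set.nonempty_iff_ne_empty]
      intro h3
      have h4 := h1.2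
      rw [h3, Set.ncard_empty] at h4
      omega
    obtain ⟨r, h3, h4⟩ := h2
    obtain ⟨r', h5, h6⟩ := h2'
    exact ⟨⟨⟨c, r⟩, hc, hAx c hc r u.1 u.2 h4⟩, h3, (hOnR _ u).2 h4,
      ⟨⟨c, r'⟩, hc, hAx c hc r' u.1 u.2 h6⟩, h5, (hOnR _ u).2 h6, rfl⟩
  -- three strands
  have h3 : 3 ≤ Fintype.card {v // A v} := by
    obtain ⟨r, hr1, hr2, r', hr1', hr2', hrr⟩ := hIn ⟨v₀, hv₀A⟩
    have h4 := hH.par r r' _ hrr hr1 hr1' hr2 hr2'
    have h5 := SQ2.V.AvoidOf.oth_ne hr2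
    have h6 := SQ2.V.AvoidOf.oth_ne hr2'
    have h7 : ({⟨v₀, hv₀A⟩, Pb.oth r ⟨v₀, hv₀A⟩, Pb.oth r' ⟨v₀, hv₀A⟩} : Finset {v // A v}).card = 3 :=
      Finset.card_eq_three.2 ⟨_, _, _, h5.symm, h6.symm, h4, rfl⟩
    rw [← h7]
    exact Finset.card_le_univ _
  -- automorphisms without fixed points
  have hfree : FreeNb Pb := by
    intro u
    obtain ⟨r, hr1, hr2, -⟩ := hIn u
    set u' := Pb.oth r u with hu'
    have huu' : Sh D ((u.1 : {v // v ∈ F}) : Q) (u'.1 : Q) := by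
      have h4 := ((hX r.1.1 r.2.1).inner r.1.2 hr1).1
      rcases hr2 with h5 | h5
      · have h6 : u' = Pb.y r := by rw [hu', h5, SQ2.V.AvoidOf.oth_x]
        rw [h5, h6]
        exact h4
      · have h6 : u' = Pb.x r := by rw [hu', h5, SQ2.V.AvoidOf.oth_y]
        rw [h5, h6]
        exact h4.symm
    set δ : Q := (u'.1 : Q) * ((u.1 : {v // v ∈ F}) : Q)⁻¹ with hδ'
    have hδ : δ ∈ D := by
      have h4 := H.nD.conj_mem _ huu' ((u.1 : {v // v ∈ F}) : Q)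
      rwa [mul_inv_cancel_left] at h4
    have hmem : ∀ δ' ∈ D, ∀ w : {v // v ∈ F}, δ' * (w : Q) ∈ F := by
      intro δ' hδ' w
      have h4 := H.nD.conj_mem _ hδ' (w : Q)⁻¹
      rw [inv_inv] at h4
      have h5 := hF _ w.2 _ h4
      rwa [mul_assoc, mul_inv_cancel_left] at h5
    have hJN : ∀ w w' : {v // A v}, SQ2.V.AvoidOf.N Pb w w' ↔ ∃ c, J c ∧ Jr (T.X c) w.1 w'.1 := by
      intro w w'
      constructor
      · rintro ⟨q, ⟨h1, h2⟩ | ⟨h1, h2⟩⟩
        · exact ⟨q.1.1, q.2.1, q.1.2, Or.inl ⟨congrArg Subtype.val h1, congrArg Subtype.val h2⟩⟩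
        · exact ⟨q.1.1, q.2.1, q.1.2, Or.inr ⟨congrArg Subtype.val h1, congrArg Subtype.val h2⟩⟩
      · rintro ⟨c, hc, q, ⟨h1, h2⟩ | ⟨h1, h2⟩⟩
        · exact ⟨⟨⟨c, q⟩, hc, by show A ((T.X c).x q); rw [h1]; exact w.2⟩, Or.inl ⟨Subtype.ext h1, Subtype.ext h2⟩⟩
        · exact ⟨⟨⟨c, q⟩, hc, by show A ((T.X c).x q); rw [h1]; exact w'.2⟩,
            Or.inr ⟨Subtype.ext h1, Subtype.ext h2⟩⟩
    have hJA : ∀ c, J c → ∀ w w' : {v // v ∈ F}, Jr (T.X c) w w' → A w → A w' := by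
      rintro c hc w w' ⟨q, ⟨h1, h2⟩ | ⟨h1, h2⟩⟩ hw
      · rw [← h2, ← hiff c hc, h1]; exact hw
      · rw [← h1, hiff c hc, h2]; exact hw
    -- the multiplication by `δ`
    let act : {v // v ∈ F} → {v // v ∈ F} := fun w => ⟨δ * (w : Q), hmem δ hδ w⟩
    let act' : {v // v ∈ F} → {v // v ∈ F} := fun w => ⟨δ⁻¹ * (w : Q), hmem δ⁻¹ (D.inv_mem hδ) w⟩
    have hact' : ∀ w, act' (act w) = w := fun w => Subtype.ext (inv_mul_cancel_left δ (w : Q))
    have hj : ∀ {c}, J c → ∀ {w w'}, Jr (T.X c) w w' → Jr (T.X c) (act w) (act w') := fun {c} hc {w w'} hw =>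
      jr_act (hX c hc) hδ (fun _ => rfl) hw
    have hj' : ∀ {c}, J c → ∀ {w w'}, Jr (T.X c) w w' → Jr (T.X c) (act' w) (act' w') := fun {c} hc {w w'} hw =>
      jr_act (hX c hc) (D.inv_mem hδ) (fun _ => rfl) hw
    have hactu : act u.1 = u'.1 := Subtype.ext (inv_mul_cancel_right _ _)
    have hAact : ∀ w : {v // A v}, A (act w.1) := by
      intro w
      have key : ∀ w : {v // A v}, Relation.ReflTransGen (fun a b => ∃ r, Pb.On r a ∧ Pb.On r b) u w →
          A (act w.1) := by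
        intro w hw
        induction hw with
        | refl => rw [hactu]; exact u'.2
        | @tail b' c' _ hbc ih =>
          obtain ⟨q, h1, h2⟩ := hbc
          rcases (SQ2.V.AvoidOf.on_iff_oth h1).1 h2 with h3 | h3
          · rw [h3]; exact ih
          · have h4 : SQ2.V.AvoidOf.N Pb b' c' := by rw [h3]; exact SQ2.V.AvoidOf.N_of_on h1
            obtain ⟨c, hc, h5⟩ := (hJN _ _).1 h4
            exact hJA c hc _ _ (hj hc h5) ih
      exact key w (hC u w)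
    let hm : {v // A v} → {v // A v} := fun w => ⟨act w.1, hAact w⟩
    have hminj : Function.Injective hm := by
      intro w w' hw
      have h4 : act w.1 = act w'.1 := congrArg Subtype.val hw
      have h5 := congrArg act' h4
      rw [hact', hact'] at h5
      exact Subtype.ext h5
    refine ⟨Equiv.ofBijective hm (Finite.injective_iff_bijective.1 hminj), ?_, ?_, ?_⟩
    · intro w w'
      show SQ2.V.AvoidOf.N Pb (hm w) (hm w') ↔ _
      rw [hJN, hJN]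
      constructor
      · rintro ⟨c, hc, h4⟩
        have h5 := hj' hc h4
        rw [hact', hact'] at h5
        exact ⟨c, hc, h5⟩
      · rintro ⟨c, hc, h4⟩
        exact ⟨c, hc, hj hc h4⟩
    · intro w hw
      have h4 : act w.1 = w.1 := congrArg Subtype.val hw
      have h5 : δ * ((w.1 : {v // v ∈ F}) : Q) = (w.1 : Q) := congrArg Subtype.val h4
      have h6 : δ = 1 := mul_eq_right.1 h5
      have h7 : u'.1 = u.1 := by
        rw [← hactu]
        refine Subtype.ext ?_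
        show δ * ((u.1 : {v // v ∈ F}) : Q) = _
        rw [h6, one_mul]
      exact SQ2.V.AvoidOf.oth_ne hr2 (Subtype.ext h7)
    · show SQ2.V.AvoidOf.N Pb u (hm u)
      have h4 : hm u = u' := Subtype.ext hactu
      rw [h4]
      exact SQ2.V.AvoidOf.N_of_on hr2
  refine ⟨SQ2.V.Puz.HypK.of_scon hS (twoN_of_free hfree hCS h3) (noCut_of_free hfree hCS) hCS, ?_⟩
  -- the weights
  intro hfr p hp hpk
  have hwt := fun c (hc : J c) => (hX c hc).wt
  choose! m wt hm0 hmk hwt hsum using hwt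
  obtain ⟨c₀, hc₀, -⟩ := hv₀
  have hneC : Nonempty T.C := ⟨c₀⟩
  -- the family of a sheet
  set e : {v // v ∈ F} → T.C := fun u => Classical.epsilon fun c => J c ∧ On' c u with he
  have hesh : ∀ u u' : {v // v ∈ F}, Sh D (u : Q) (u' : Q) → e u = e u' := by
    intro u u' huu
    simp only [he]
    congr 1
    funext c
    have h1 : On' c u ↔ On' c u' := by
      simp only [hOn']
      constructor
      · rintro (h1 | h1)
        · exact Or.inl (h1.trans huu)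
        · exact Or.inr (h1.trans huu)
      · rintro (h1 | h1)
        · exact Or.inl (h1.trans huu.symm)
        · exact Or.inr (h1.trans huu.symm)
    rw [h1]
  have hespec : ∀ u, A u → J (e u) ∧ On' (e u) u := fun u hu => Classical.epsilon_spec (hon u hu)
  refine ⟨fun r => if r.1.1 = e ((T.X r.1.1).x r.1.2) then (wt r.1.1 r.1.2 : ZMod p) * ((m r.1.1 : ZMod p))⁻¹ else 0,
    1, one_ne_zero, ?_⟩
  intro u
  set c := e u.1 with hc'
  obtain ⟨hc, hcu⟩ := hespec u.1 u.2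
  have hm1 : (m c : ZMod p) ≠ 0 := by
    intro h4
    rw [ZMod.natCast_eq_zero_iff] at h4
    have h5 := Nat.le_of_dvd (hm0 c hc) h4
    have h6 := hmk c hc
    omega
  have h1 : (∑ r : T.Rc c, if u.1 = (T.X c).x r ∨ u.1 = (T.X c).y r then (wt c r : ZMod p) * ((m c : ZMod p))⁻¹ else 0) =
      1 := by
    have h2 := congrArg (Nat.cast : ℕ → ZMod p) (hsum c hc u.1 hcu)
    push_cast at h2
    have h3 : (∑ r : T.Rc c, if u.1 = (T.X c).x r ∨ u.1 = (T.X c).y r then (wt c r : ZMod p) * ((m c : ZMod p))⁻¹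
        else 0) = (∑ r : T.Rc c, if u.1 = (T.X c).x r ∨ u.1 = (T.X c).y r then (wt c r : ZMod p) else 0) *
          ((m c : ZMod p))⁻¹ := by
      rw [Finset.sum_mul]
      refine Finset.sum_congr rfl fun r _ => ?_
      rw [ite_mul, zero_mul]
    rw [h3, h2]
    exact mul_inv_cancel₀ hm1
  rw [← h1]
  -- the sum over the rungs of the family `c`
  have h4 : ∀ r : T.Rc c, (u.1 = (T.X c).x r ∨ u.1 = (T.X c).y r) → T.rg J A ⟨c, r⟩ := fun r hr =>
    ⟨hc, hAx c hc r u.1 u.2 hr⟩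
  symm
  rw [← Finset.sum_filter, ← Finset.sum_filter]
  refine Finset.sum_bij_ne_zero (fun r hr _ => ⟨⟨c, r⟩, h4 r (Finset.mem_filter.1 hr).2⟩) ?_ ?_ ?_ ?_
  · intro r hr _
    rw [Finset.mem_filter]
    exact ⟨Finset.mem_univ _, (hOnR _ u).2 (Finset.mem_filter.1 hr).2⟩
  · intro r hr _ r' hr' _ h5
    have h6 := congrArg Subtype.val h5
    exact sigma_mk_injective h6
  · rintro ⟨⟨c', r⟩, hr⟩ h5 h6
    rw [Finset.mem_filter] at h5
    have h7 := (hOnR _ u).1 h5.2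
    have h8 : c' = e ((T.X c').x r) := by
      by_contra h8
      exact h6 (if_neg h8)
    have h9 : (wt c' r : ZMod p) * ((m c' : ZMod p))⁻¹ ≠ 0 := by
      intro h9
      exact h6 (by rw [if_pos h8]; exact h9)
    have h10 : wt c' r ≠ 0 := by
      intro h10
      rw [h10, Nat.cast_zero, zero_mul] at h9
      exact h9 rfl
    have h11 : Sh D (((T.X c').x r : {v // v ∈ F}) : Q) (u.1 : Q) := by
      rcases h7 with h7 | h7
      · rw [h7]; exact (by unfold Sh; rw [inv_mul_cancel]; exact D.one_mem)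
      · rw [h7]; exact ((hX c' hr.1).inner r (hwt c' hr.1 r h10)).1
    have h12 : c' = c := by rw [h8, hesh _ _ h11]
    subst h12
    exact ⟨r, Finset.mem_filter.2 ⟨Finset.mem_univ _, h7⟩, h9, rfl⟩
  · intro r hr hne
    have h5 := (Finset.mem_filter.1 hr).2
    have h6 : wt c r ≠ 0 := by
      intro h10
      apply hne
      rw [h10, Nat.cast_zero, zero_mul]
    have h11 : Sh D (((T.X c).x r : {v // v ∈ F}) : Q) (u.1 : Q) := by
      rcases h5 with h7 | h7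
      · rw [h7]; exact (by unfold Sh; rw [inv_mul_cancel]; exact D.one_mem)
      · rw [h7]; exact ((hX c hc).inner r (hwt c hc r h6)).1
    show _ = if c = e ((T.X c).x r) then (wt c r : ZMod p) * ((m c : ZMod p))⁻¹ else 0
    rw [if_pos (by rw [hesh _ _ h11])]

/-- COMPJ. -/
theorem compJ : CompJS := by
  intro Q _ _ B a b eps D z k H F T x s₁ s₂ r h hT hF J hX v₀ A hA hv₀ p hp hpk
  obtain ⟨c, hc, hcv⟩ := hv₀
  have h1 : ∃ r, v₀ = (T.X c).x r ∨ v₀ = (T.X c).y r := by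
    obtain ⟨m, wt, hm0, _, _, hsum⟩ := (hT.fam c).wt
    by_contra hno
    push Not at hno
    have h2 := hsum v₀ hcv
    rw [Finset.sum_eq_zero fun r _ => if_neg fun h3 => h3.elim (hno r).1 (hno r).2] at h2
    omega
  obtain ⟨h2, h3⟩ := compJ' hF hX hA ⟨c, hc, h1⟩ (T.clo hT hA.cmp)
  exact ⟨h2, h3 _ p hp hpk⟩

end Pool.Agent.Lib.MP_688fd0_co.SQ4.CV
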