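import Pool.Agent.Lib.MP_688fd0_co.SQ4.H95.Count

/-!
UNION-COUNT: closed classes of caps for a union of families of rungs. The family `i` touches the strands `FOn i`, it
connects them, each of them has `2 e i` rungs of the family, and at most `e i` of them go to the same strand, except when
the family has only two strands.
-/

set_option autoImplicit false

namespace Pool.Agent.Lib.MP_688fd0_co.SQ4

open Pool.Agent.Lib.MP_688fd0_co.SQ2.V Pool.Agent.Lib.MP_688fd0_co.SQ2.V.Puz

section defs

variable {S R I : Type} [DecidableEq S] (P : Puz S R) (fam : R → I)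

/-- The strands of the family `i`. -/
def FOn (i : I) (v : S) : Prop := ∃ r, fam r = i ∧ P.On r v

/-- At most `e` parallel rungs. -/
def FPar (e : I → ℕ) (i : I) : Prop := ∀ v u, {r | fam r = i ∧ P.On r v ∧ P.oth r v = u}.ncard ≤ e i

/-- The family has only two strands. -/
def FTwo (i : I) : Prop := ∀ r r' v, fam r = i → fam r' = i → P.On r v → P.On r' v ∧ P.oth r' v = P.oth r v

/-- A union of families. -/
structure Fams (e : I → ℕ) : Prop where
  tau : ∀ r, fam (P.tau r) = fam r
  deg : ∀ i v, FOn P fam i v → {r | fam r = i ∧ P.On r v}.ncard = 2 * e i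
  conn : ∀ i v w, FOn P fam i v → FOn P fam i w →
    Relation.ReflTransGen (fun a b => ∃ r, fam r = i ∧ P.On r a ∧ P.On r b) v w
  par : ∀ i, FPar P fam e i ∨ FTwo P fam i

/-- MODE U: a matching `u` of the strands; the families with two strands lie over the matching, half of the rungs of the
others are over the matching, and these are the caps of `K`. -/
structure ModeU (e : I → ℕ) (K : R → Prop) (u : S → S) : Prop where
  closed : Closed P K
  touch : ∀ v, ∃ r, K r ∧ P.On r v
  dir : ∀ r v, K r → P.On r v → P.oth r v = u v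
  two : ∀ r v, FTwo P fam (fam r) → P.On r v → P.oth r v = u v
  half : ∀ i v, ¬ FTwo P fam i → FOn P fam i v → {r | fam r = i ∧ P.On r v ∧ P.oth r v = u v}.ncard = e i
  mem : ∀ r v, ¬ FTwo P fam (fam r) → P.On r v → (K r ↔ P.oth r v = u v)
  nb : ∀ r, ¬ FTwo P fam (fam r) → (Nb P K r ↔ ¬ K r)
  tau : ∀ r, ¬ FTwo P fam (fam r) → (K (P.tau r) ↔ ¬ K r)

end defs

section count

variable {S R I : Type} [Fintype S] [DecidableEq S] [Fintype R] {P : Puz S R} {fam : R → I} {e : I → ℕ}

open Classical in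
/-- Double counting of ends. -/
theorem two_cardF (i : I) (Y : Finset R) (hY : ∀ r ∈ Y, fam r = i) (V : Finset S)
    (hV : ∀ v, FOn P fam i v → v ∈ V) : 2 * Y.card = ∑ v ∈ V, (Y.filter fun r => P.On r v).card := by
  have h1 := Finset.sum_card_bipartiteAbove_eq_sum_card_bipartiteBelow (s := Y) (t := V) (fun r v => P.On r v)
  have h2 : ∑ r ∈ Y, (V.filter fun v => P.On r v).card = ∑ v ∈ V, (Y.filter fun r => P.On r v).card := h1
  rw [← h2, Finset.sum_congr rfl (g := fun _ => 2), Finset.sum_const, smul_eq_mul, mul_comm]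
  intro r hr
  exact card_on_full P r V (hV _ ⟨r, hY r hr, Or.inl rfl⟩) (hV _ ⟨r, hY r hr, Or.inr rfl⟩)

open Classical in
omit [Fintype S] in
/-- Strand by strand, for one family. -/
theorem strandF (i : I) (hF : FPar P fam e i) {v : S} (hdeg : {r | fam r = i ∧ P.On r v}.ncard = 2 * e i)
    (K : R → Prop) :
    ((Finset.univ.filter fun r => K r ∧ fam r = i).filter fun r => P.On r v).card ≤
      ((Finset.univ.filter fun r => Nb P K r ∧ fam r = i).filter fun r => P.On r v).card ∧
    (((Finset.univ.filter fun r => K r ∧ fam r = i).filter fun r => P.On r v).card =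
      ((Finset.univ.filter fun r => Nb P K r ∧ fam r = i).filter fun r => P.On r v).card →
      ((∃ r r', K r ∧ K r' ∧ P.On r v ∧ P.On r' v ∧ P.oth r v ≠ P.oth r' v) ∧
        ∀ r, fam r = i → P.On r v → K r ∧ Nb P K r) ∨
      (∃ r0, K r0 ∧ P.On r0 v ∧ (∀ r, K r → P.On r v → P.oth r v = P.oth r0 v) ∧
        {r | fam r = i ∧ P.On r v ∧ P.oth r v = P.oth r0 v}.ncard = e i ∧
        ∀ r, fam r = i → P.On r v → (K r ↔ P.oth r v = P.oth r0 v) ∧ (Nb P K r ↔ ¬ K r)) ∨
      ((∀ r, P.On r v → ¬ K r) ∧ ∀ r, fam r = i → P.On r v → ¬ Nb P K r)) := by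
  set Kv := (Finset.univ.filter fun r => K r ∧ fam r = i).filter fun r => P.On r v with hKv
  set Nv := (Finset.univ.filter fun r => Nb P K r ∧ fam r = i).filter fun r => P.On r v with hNv
  set D : Finset R := Finset.univ.filter fun r => fam r = i ∧ P.On r v with hD
  have mK : ∀ r, r ∈ Kv ↔ K r ∧ fam r = i ∧ P.On r v := by intro r; simp [hKv, and_assoc]
  have mN : ∀ r, r ∈ Nv ↔ Nb P K r ∧ fam r = i ∧ P.On r v := by intro r; simp [hNv, and_assoc]
  have mD : ∀ r, r ∈ D ↔ fam r = i ∧ P.On r v := by intro r; simp [hD]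
  have cD : D.card = 2 * e i := by
    rw [← hdeg, ← Set.ncard_coe_finset]
    congr 1
    ext r
    simp [hD]
  by_cases h0 : ∃ r0, K r0 ∧ P.On r0 v
  swap
  · push Not at h0
    have h1 : Kv = ∅ := by
      rw [Finset.eq_empty_iff_forall_notMem]
      intro r hr
      have := (mK r).1 hr
      exact h0 r this.1 this.2.2
    rw [h1, Finset.card_empty]
    refine ⟨Nat.zero_le _, fun h => Or.inr (Or.inr ⟨fun r hr hk => h0 r hk hr, fun r hi hr h' => ?_⟩)⟩
    have h2 : Nv = ∅ := Finset.card_eq_zero.1 h.symm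
    have h3 := (mN r).2 ⟨h', hi, hr⟩
    rw [h2] at h3
    exact absurd h3 (Finset.notMem_empty r)
  obtain ⟨r0, k0, o0⟩ := h0
  by_cases h1 : ∀ r, K r → P.On r v → P.oth r v = P.oth r0 v
  · set Pa : Finset R := Finset.univ.filter fun r => fam r = i ∧ P.On r v ∧ P.oth r v = P.oth r0 v with hPa
    have mP : ∀ r, r ∈ Pa ↔ fam r = i ∧ P.On r v ∧ P.oth r v = P.oth r0 v := by intro r; simp [hPa]
    have cP : Pa.card ≤ e i := by
      refine le_trans (le_of_eq ?_) (hF v (P.oth r0 v))
      rw [← Set.ncard_coe_finset]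
      congr 1
      ext r
      simp [hPa]
    have s1 : Kv ⊆ Pa := fun r hr => (mP r).2
      ⟨((mK r).1 hr).2.1, ((mK r).1 hr).2.2, h1 r ((mK r).1 hr).1 ((mK r).1 hr).2.2⟩
    have s2 : Pa ⊆ D := fun r hr => (mD r).2 ⟨((mP r).1 hr).1, ((mP r).1 hr).2.1⟩
    have s3 : D \ Pa ⊆ Nv := by
      intro r hr
      rw [Finset.mem_sdiff, mD, mP] at hr
      exact (mN r).2 ⟨⟨r0, v, k0, o0, hr.1.2, fun h => hr.2 ⟨hr.1.1, hr.1.2, h.symm⟩⟩, hr.1⟩
    have s4 : Nv ⊆ D := fun r hr => (mD r).2 ((mN r).1 hr).2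
    have c3 : (D \ Pa).card + Pa.card = 2 * e i := by
      rw [Finset.card_sdiff_add_card_eq_card s2, cD]
    have c4 := Finset.card_le_card s3
    have c5 := Finset.card_le_card s1
    refine ⟨by omega, fun h => Or.inr (Or.inl ⟨r0, k0, o0, h1, ?_, fun r hi hr => ?_⟩)⟩
    · have : Pa.card = e i := by omega
      rw [← this, ← Set.ncard_coe_finset]
      congr 1
      ext r
      simp [hPa]
    · have e1 : Kv = Pa := Finset.eq_of_subset_of_card_le s1 (by omega)
      have e2 : D \ Pa = Nv := Finset.eq_of_subset_of_card_le s3 (by omega)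
      have k1 : K r ↔ P.oth r v = P.oth r0 v := by
        constructor
        · exact fun h' => h1 r h' hr
        · intro h'
          have : r ∈ Kv := by rw [e1, mP]; exact ⟨hi, hr, h'⟩
          exact ((mK r).1 this).1
      refine ⟨k1, ?_⟩
      constructor
      · intro h' h''
        have h3 : r ∈ Nv := (mN r).2 ⟨h', hi, hr⟩
        rw [← e2, Finset.mem_sdiff, mP] at h3
        exact h3.2 ⟨hi, hr, k1.1 h''⟩
      · intro h'
        have h3 : r ∈ D \ Pa := by
          rw [Finset.mem_sdiff, mD, mP]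
          exact ⟨⟨hi, hr⟩, fun h'' => h' (k1.2 h''.2.2)⟩
        rw [e2] at h3
        exact ((mN r).1 h3).1
  · push Not at h1
    obtain ⟨r1, k1, o1, hne⟩ := h1
    have e1 : Nv = D := by
      ext r
      rw [mN, mD]
      refine ⟨fun h => h.2, fun h => ⟨?_, h⟩⟩
      by_cases h2 : P.oth r v = P.oth r0 v
      · exact ⟨r1, v, k1, o1, h.2, fun h3 => hne (h3.trans h2)⟩
      · exact ⟨r0, v, k0, o0, h.2, fun h3 => h2 h3.symm⟩
    have s1 : Kv ⊆ D := fun r hr => (mD r).2 ((mK r).1 hr).2
    rw [e1]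
    refine ⟨Finset.card_le_card s1, fun h => Or.inl ⟨⟨r1, r0, k1, k0, o1, o0, hne⟩, fun r hi hr => ?_⟩⟩
    have e2 : Kv = D := Finset.eq_of_subset_of_card_le s1 (by omega)
    exact ⟨((mK r).1 (by rw [e2, mD]; exact ⟨hi, hr⟩)).1, ((mN r).1 (by rw [e1, mD]; exact ⟨hi, hr⟩)).1⟩

omit [Fintype S] in
/-- The number of neighbours of a family is at most the number of its caps. -/
theorem nb_leF (ht : ∀ r, fam (P.tau r) = fam r) {K : R → Prop} (hK : Closed P K) (i : I) :
    {r | Nb P K r ∧ fam r = i}.ncard ≤ {r | K r ∧ fam r = i}.ncard := by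
  refine Set.ncard_le_ncard_of_injOn P.tau ?_ (fun a _ b _ h => P.tau.injective h) (Set.toFinite _)
  rintro r ⟨⟨q, v, h1, h2⟩, h3⟩
  exact ⟨hK q r v h1 h2, (ht r).trans h3⟩

open Classical in
/-- The three types of strands of a family which is not small. -/
theorem typesF (hF : Fams P fam e) {K : R → Prop} (hK : Closed P K) (i : I) (hp : FPar P fam e i) {v : S}
    (hv : FOn P fam i v) :
      ((∃ r r', K r ∧ K r' ∧ P.On r v ∧ P.On r' v ∧ P.oth r v ≠ P.oth r' v) ∧
        ∀ r, fam r = i → P.On r v → K r ∧ Nb P K r) ∨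
      (∃ r0, K r0 ∧ P.On r0 v ∧ (∀ r, K r → P.On r v → P.oth r v = P.oth r0 v) ∧
        {r | fam r = i ∧ P.On r v ∧ P.oth r v = P.oth r0 v}.ncard = e i ∧
        ∀ r, fam r = i → P.On r v → (K r ↔ P.oth r v = P.oth r0 v) ∧ (Nb P K r ↔ ¬ K r)) ∨
      ((∀ r, P.On r v → ¬ K r) ∧ ∀ r, fam r = i → P.On r v → ¬ Nb P K r) := by
  set A : Finset R := Finset.univ.filter fun r => K r ∧ fam r = i with hA
  set N : Finset R := Finset.univ.filter fun r => Nb P K r ∧ fam r = i with hN
  set V : Finset S := Finset.univ.filter fun v => FOn P fam i v with hV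
  have hAN : N.card ≤ A.card := by
    have h1 := nb_leF hF.tau hK i
    have c1 : {r | Nb P K r ∧ fam r = i}.ncard = N.card := by
      rw [← Set.ncard_coe_finset]; congr 1; ext r; simp [hN]
    have c2 : {r | K r ∧ fam r = i}.ncard = A.card := by
      rw [← Set.ncard_coe_finset]; congr 1; ext r; simp [hA]
    rw [← c1, ← c2]
    exact h1
  have mV : ∀ v, v ∈ V ↔ FOn P fam i v := by intro v; simp [hV]
  have c2 := two_cardF (P := P) (fam := fam) i A (fun r hr => (Finset.mem_filter.1 hr).2.2) V (fun v h => (mV v).2 h)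
  have c3 := two_cardF (P := P) (fam := fam) i N (fun r hr => (Finset.mem_filter.1 hr).2.2) V (fun v h => (mV v).2 h)
  have c4 : ∀ v ∈ V, (A.filter fun r => P.On r v).card ≤ (N.filter fun r => P.On r v).card :=
    fun v hv => (strandF i hp (hF.deg i v ((mV v).1 hv)) K).1
  have c5 := Finset.sum_le_sum c4
  have c6 : ∑ v ∈ V, (A.filter fun r => P.On r v).card = ∑ v ∈ V, (N.filter fun r => P.On r v).card := by
    omega
  have c7 := (Finset.sum_eq_sum_iff_of_le c4).1 c6
  exact (strandF i hp (hF.deg i v hv) K).2 (c7 v ((mV v).2 hv))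

/-- The neighbours and the caps of a family which is not small. -/
theorem card_nbF (hF : Fams P fam e) {K : R → Prop} (hK : Closed P K) (i : I) (hp : FPar P fam e i) :
    {r | Nb P K r ∧ fam r = i}.ncard = {r | K r ∧ fam r = i}.ncard := by
  classical
  refine le_antisymm (nb_leF hF.tau hK i) ?_
  set A : Finset R := Finset.univ.filter fun r => K r ∧ fam r = i with hA
  set N : Finset R := Finset.univ.filter fun r => Nb P K r ∧ fam r = i with hN
  set V : Finset S := Finset.univ.filter fun v => FOn P fam i v with hV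
  have d1 : {r | Nb P K r ∧ fam r = i}.ncard = N.card := by
    rw [← Set.ncard_coe_finset]; congr 1; ext r; simp [hN]
  have d2 : {r | K r ∧ fam r = i}.ncard = A.card := by
    rw [← Set.ncard_coe_finset]; congr 1; ext r; simp [hA]
  rw [d1, d2]
  have mV : ∀ v, v ∈ V ↔ FOn P fam i v := by intro v; simp [hV]
  have c2 := two_cardF (P := P) (fam := fam) i A (fun r hr => (Finset.mem_filter.1 hr).2.2) V (fun v h => (mV v).2 h)
  have c3 := two_cardF (P := P) (fam := fam) i N (fun r hr => (Finset.mem_filter.1 hr).2.2) V (fun v h => (mV v).2 h)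
  have c4 : ∀ v ∈ V, (A.filter fun r => P.On r v).card ≤ (N.filter fun r => P.On r v).card :=
    fun v hv => (strandF i hp (hF.deg i v ((mV v).1 hv)) K).1
  have c5 := Finset.sum_le_sum c4
  omega

omit [Fintype S] in
/-- A small family whose rungs are all adjacent to caps consists of caps. -/
theorem all_of_nb (ht : ∀ r, fam (P.tau r) = fam r) {K : R → Prop} (hK : Closed P K) (i : I)
    (h : ∀ r, fam r = i → Nb P K r) : ∀ r, fam r = i → K r := by
  intro r hr
  have h1 := nb_leF ht hK i
  have h2 : {r | Nb P K r ∧ fam r = i} = {r | fam r = i} := by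
    ext q
    exact ⟨fun h' => h'.2, fun h' => ⟨h q h', h'⟩⟩
  rw [h2] at h1
  have h3 : {r | K r ∧ fam r = i} = {r | fam r = i} :=
    Set.eq_of_subset_of_ncard_le (fun q hq => hq.2) h1 (Set.toFinite _)
  have h4 : r ∈ {r | K r ∧ fam r = i} := by rw [h3]; exact hr
  exact h4.1

/-- Two directions of caps at `v`. -/
def TwoDir (P : Puz S R) (K : R → Prop) (v : S) : Prop :=
  ∃ r r', K r ∧ K r' ∧ P.On r v ∧ P.On r' v ∧ P.oth r v ≠ P.oth r' v

omit [Fintype S] [Fintype R] in
theorem TwoDir.nb {K : R → Prop} {v : S} (h : TwoDir P K v) (r : R) (hr : P.On r v) : Nb P K r := by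
  obtain ⟨a, b, ka, kb, oa, ob, hne⟩ := h
  by_cases h1 : P.oth a v = P.oth r v
  · exact ⟨b, v, kb, ob, hr, fun h2 => hne (h1.trans h2.symm)⟩
  · exact ⟨a, v, ka, oa, hr, h1⟩

theorem TwoDir.all (hF : Fams P fam e) {K : R → Prop} (hK : Closed P K) {v : S} (h : TwoDir P K v) (r : R)
    (hr : P.On r v) : K r := by
  rcases hF.par (fam r) with hp | hp
  · rcases typesF hF hK (fam r) hp ⟨r, rfl, hr⟩ with t | ⟨r0, k0, o0, t, _, _⟩ | t
    · exact (t.2 r rfl hr).1
    · obtain ⟨a, b, ka, kb, oa, ob, hne⟩ := h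
      exact absurd ((t a ka oa).trans (t b kb ob).symm) hne
    · obtain ⟨a, b, ka, kb, oa, ob, hne⟩ := h
      exact absurd ka (t.1 a oa)
  · exact all_of_nb hF.tau hK (fam r) (fun q hq => h.nb q (hp r q v rfl hq hr).1) r rfl

omit [Fintype S] [Fintype R] in
theorem oth_of_on {r : R} {v w : S} (hv : P.On r v) (hw : P.On r w) (hne : w ≠ v) : P.oth r w = v := by
  unfold Puz.oth
  rcases hv with rfl | rfl <;> rcases hw with rfl | rfl
  · exact absurd rfl hne
  · rw [if_neg (P.ne r).symm]
  · rw [if_pos rfl]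
  · exact absurd rfl hne

omit [Fintype S] [Fintype R] in
theorem on_oth {r : R} {v : S} : P.On r (P.oth r v) := by
  unfold Puz.oth
  split_ifs
  · exact Or.inr rfl
  · exact Or.inl rfl

omit [Fintype S] in
theorem Fams.pos (hF : Fams P fam e) {i : I} {v : S} (h : FOn P fam i v) : 0 < e i := by
  have h1 := hF.deg i v h
  obtain ⟨r, h2, h3⟩ := h
  have h4 : 0 < {r | fam r = i ∧ P.On r v}.ncard := (Set.ncard_pos (Set.toFinite _)).2 ⟨r, h2, h3⟩
  omega

/-- Two directions propagate, except to strands with only one neighbour. -/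
theorem TwoDir.step (hF : Fams P fam e) {K : R → Prop} (hK : Closed P K) {v w : S} (h : TwoDir P K v) {r : R}
    (hv : P.On r v) (hw : P.On r w) : TwoDir P K w ∨ ∀ r', P.On r' w → P.oth r' w = v := by
  by_cases hvw : w = v
  · rw [hvw]; exact Or.inl h
  by_cases h2 : TwoDir P K w
  · exact Or.inl h2
  right
  intro r' hr'
  have hrv : P.oth r w = v := oth_of_on hv hw hvw
  have kr : K r := h.all hF hK r hv
  have hone : ∀ q, K q → P.On q w → P.oth q w = v := by
    intro q hq ho
    by_contra hn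
    exact h2 ⟨q, r, hq, kr, ho, hw, fun h3 => hn (h3.trans hrv)⟩
  rcases hF.par (fam r') with hp | hp
  · rcases typesF hF hK (fam r') hp ⟨r', rfl, hr'⟩ with t | ⟨r0, k0, o0, t1, t2, t3⟩ | t
    · exact absurd t.1 h2
    · have hpos : 0 < e (fam r') := hF.pos ⟨r', rfl, hr'⟩
      have hne : {q | fam q = fam r' ∧ P.On q w ∧ P.oth q w = P.oth r0 w}.Nonempty := by
        rw [← Set.ncard_pos (Set.toFinite _), t2]
        exact hpos
      obtain ⟨q, q1, q2, q3⟩ := hne
      have q4 : P.oth q w = v := q3.trans (hone r0 k0 o0)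
      have q5 : P.On q v := by rw [← q4]; exact on_oth
      have q6 := h.all hF hK q q5
      have q7 := h.nb q q5
      exact absurd q6 ((t3 q q1 q2).2.1 q7)
    · exact absurd kr (t.1 r hw)
  · by_contra hn
    have h3 : ∀ q, fam q = fam r' → Nb P K q := by
      intro q hq
      obtain ⟨q1, q2⟩ := hp r' q w rfl hq hr'
      exact ⟨r, w, kr, hw, q1, fun h4 => hn (q2.symm.trans (h4.symm.trans hrv))⟩
    exact hn (hone r' (all_of_nb hF.tau hK (fam r') h3 r' rfl) hr')

/-- UNION-COUNT: a closed class of caps is everything or of mode U. -/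
theorem unionCount (hF : Fams P fam e)
    (hC : ∀ v w, Relation.ReflTransGen (fun a b => ∃ r, P.On r a ∧ P.On r b) v w) {K : R → Prop}
    (hK : Closed P K) (hne : ∃ r, K r) : (∀ r, K r) ∨ ∃ u, ModeU P fam e K u := by
  classical
  by_cases h2 : ∃ v, TwoDir P K v
  · left
    obtain ⟨v0, hv0⟩ := h2
    have hall : ∀ w, TwoDir P K w ∨ ∃ v, TwoDir P K v ∧ ∀ r', P.On r' w → P.oth r' w = v := by
      intro w
      induction hC v0 w with
      | refl => exact Or.inl hv0
      | @tail b c _ h ih =>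
        obtain ⟨r, hb, hc⟩ := h
        rcases ih with ih | ⟨v, hv, ih⟩
        · rcases ih.step hF hK hb hc with h3 | h3
          · exact Or.inl h3
          · exact Or.inr ⟨b, ih, h3⟩
        · by_cases hcb : c = b
          · rw [hcb]; exact Or.inr ⟨v, hv, ih⟩
          · have h4 := ih r hb
            rw [oth_of_on hc hb (fun h5 => hcb h5.symm)] at h4
            rw [h4]
            exact Or.inl hv
    intro r
    rcases hall (P.x r) with h | ⟨v, h, h'⟩
    · exact h.all hF hK r (Or.inl rfl)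
    · have h3 := h' r (Or.inl rfl)
      refine h.all hF hK r ?_
      rw [← h3]
      exact on_oth
  · right
    push Not at h2
    have hone : ∀ v q q', K q → K q' → P.On q v → P.On q' v → P.oth q v = P.oth q' v := by
      intro v q q' hq hq' ho ho'
      by_contra hn
      exact h2 v ⟨q, q', hq, hq', ho, ho', hn⟩
    -- small families
    have hsm : ∀ r v q, FTwo P fam (fam r) → P.On r v → K q → P.On q v → P.oth r v = P.oth q v := by
      intro r v q hp hr hq ho
      by_contra hn
      have h3 : ∀ q', fam q' = fam r → Nb P K q' := by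
        intro q' hq'
        obtain ⟨q1, q2⟩ := hp r q' v rfl hq' hr
        exact ⟨q, v, hq, ho, q1, fun h4 => hn (q2.symm.trans h4.symm)⟩
      exact hn (hone v r q (all_of_nb hF.tau hK (fam r) h3 r rfl) hq hr ho)
    have htouch : ∀ v, ∃ q, K q ∧ P.On q v := by
      obtain ⟨r0, k0⟩ := hne
      intro w
      induction hC (P.x r0) w with
      | refl => exact ⟨r0, k0, Or.inl rfl⟩
      | @tail b c _ h ih =>
        obtain ⟨r, hb, hc⟩ := h
        obtain ⟨q, kq, oq⟩ := ih
        by_cases kr : K r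
        · exact ⟨r, kr, hc⟩
        rcases hF.par (fam r) with hp | hp
        · rcases typesF hF hK (fam r) hp ⟨r, rfl, hb⟩ with t | ⟨r1, k1, o1, t1, t2, t3⟩ | t
          · exact absurd t.1 (h2 b)
          · have hnb : Nb P K r := (t3 r rfl hb).2.2 kr
            rcases typesF hF hK (fam r) hp ⟨r, rfl, hc⟩ with t' | ⟨r2, k2, o2, _⟩ | t'
            · exact absurd t'.1 (h2 c)
            · exact ⟨r2, k2, o2⟩
            · exact absurd hnb (t'.2 r rfl hc)
          · exact absurd kq (t.1 q oq)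
        · have h3 := hsm r b q hp hb kq oq
          by_cases hcb : c = b
          · rw [hcb]; exact ⟨q, kq, oq⟩
          · refine ⟨q, kq, ?_⟩
            have h4 : P.oth r b = c := oth_of_on hc hb (fun h5 => hcb h5.symm)
            rw [← h4, h3]
            exact on_oth
    choose q kq oq using htouch
    have hp : ∀ r, ¬ FTwo P fam (fam r) → FPar P fam e (fam r) := fun r h => (hF.par (fam r)).resolve_right h
    have hty : ∀ i v, ¬ FTwo P fam i → FOn P fam i v →
        {r | fam r = i ∧ P.On r v ∧ P.oth r v = P.oth (q v) v}.ncard = e i ∧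
        ∀ r, fam r = i → P.On r v → (K r ↔ P.oth r v = P.oth (q v) v) ∧ (Nb P K r ↔ ¬ K r) := by
      intro i v h hv
      rcases typesF hF hK i ((hF.par i).resolve_right h) hv with t | ⟨r1, k1, o1, t1, t2, t3⟩ | t
      · exact absurd t.1 (h2 v)
      · rw [← t1 (q v) (kq v) (oq v)] at t2
        refine ⟨t2, fun r hr ho => ?_⟩
        have := t3 r hr ho
        rw [← t1 (q v) (kq v) (oq v)] at this
        exact this
      · exact absurd (kq v) (t.1 (q v) (oq v))
    have hnb : ∀ r, ¬ FTwo P fam (fam r) → (Nb P K r ↔ ¬ K r) := fun r h =>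
      ((hty (fam r) (P.x r) h ⟨r, rfl, Or.inl rfl⟩).2 r rfl (Or.inl rfl)).2
    refine ⟨fun v => P.oth (q v) v, hK, fun v => ⟨q v, kq v, oq v⟩, fun r v kr hr => hone v r (q v) kr (kq v) hr (oq v),
      fun r v h hr => hsm r v (q v) h hr (kq v) (oq v), fun i v h hv => (hty i v h hv).1,
      fun r v h hr => ((hty (fam r) v h ⟨r, rfl, hr⟩).2 r rfl hr).1, hnb, fun r h => ?_⟩
    constructor
    · intro h3
      have hc := card_nbF hF hK (fam r) (hp r h)
      have him : P.tau '' {q | Nb P K q ∧ fam q = fam r} = {q | K q ∧ fam q = fam r} := by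
        refine Set.eq_of_subset_of_ncard_le ?_ ?_ (Set.toFinite _)
        · rintro _ ⟨a, ⟨⟨b, v, h5, h6⟩, h7⟩, rfl⟩
          exact ⟨hK b a v h5 h6, (hF.tau a).trans h7⟩
        · rw [Set.ncard_image_of_injective _ P.tau.injective, hc]
      have h4 : P.tau r ∈ {q | K q ∧ fam q = fam r} := ⟨h3, hF.tau r⟩
      rw [← him] at h4
      obtain ⟨a, ⟨h5, _⟩, h6⟩ := h4
      rw [P.tau.injective h6] at h5
      exact (hnb r h).1 h5
    · intro h3
      obtain ⟨a, v, h4, h5⟩ := (hnb r h).2 h3
      exact hK a r v h4 h5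

/-- Either everything is strongly connected or there is a strongly connected class of mode U without small families. -/
theorem scon_or_modeU (hF : Fams P fam e) (h3 : 3 ≤ Fintype.card S)
    (hC : ∀ v w, Relation.ReflTransGen (fun a b => ∃ r, P.On r a ∧ P.On r b) v w) :
    SCon P ∨ ∃ K u, ModeU P fam e K u ∧ (∀ r, K r → ¬ FTwo P fam (fam r)) ∧
      ∀ r r', K r → K r' → Relation.ReflTransGen (Nx P) r r' := by
  classical
  by_cases h : ∃ K : R → Prop, Closed P K ∧ (∃ r, K r) ∧ ∃ r, ¬ K r
  swap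
  · left
    intro r r'
    by_contra hno
    exact h ⟨fun q => Relation.ReflTransGen (Nx P) r q, fun a b v h h' => h.tail ⟨b, v, h', rfl⟩,
      ⟨r, Relation.ReflTransGen.refl⟩, r', hno⟩
  right
  obtain ⟨K0, hK0, hne0, r1, hr1⟩ := h
  rcases unionCount hF hC hK0 hne0 with h4 | ⟨u0, h4⟩
  · exact absurd (h4 r1) hr1
  -- a big family
  have hbig : ∃ r, ¬ FTwo P fam (fam r) := by
    by_contra hno
    push Not at hno
    obtain ⟨r0, _⟩ := hne0
    have hall : ∀ w, w = P.x r0 ∨ w = u0 (P.x r0) := by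
      intro w
      induction hC (P.x r0) w with
      | refl => exact Or.inl rfl
      | @tail b c _ h ih =>
        obtain ⟨r, hb, hc⟩ := h
        by_cases hcb : c = b
        · rw [hcb]; exact ih
        have h5 : P.oth r b = c := oth_of_on hc hb (fun h5 => hcb h5.symm)
        have h6 := h4.two r b (hno r) hb
        have h7 : P.oth r c = b := oth_of_on hb hc hcb
        have h8 := h4.two r c (hno r) hc
        rcases ih with rfl | ih
        · exact Or.inr (h5.symm.trans h6)
        · left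
          -- `u0 (u0 x) = x`
          have h9 := h4.two r0 (P.x r0) (hno r0) (Or.inl rfl)
          have h10 : P.On r0 b := by rw [ih, ← h9]; exact on_oth
          have h11 := h4.two r0 b (hno r0) h10
          have h12 : P.oth r0 b = P.x r0 := by
            refine oth_of_on (Or.inl rfl) h10 ?_
            rw [ih, ← h9]
            unfold Puz.oth
            rw [if_pos rfl]
            exact (P.ne r0).symm
          rw [← h5, h6, ← h11, h12]
    have h13 : Fintype.card S ≤ 2 := by
      have h14 : (Finset.univ : Finset S) ⊆ {P.x r0, u0 (P.x r0)} := by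
        intro w _
        rw [Finset.mem_insert, Finset.mem_singleton]
        exact hall w
      exact le_trans (Finset.card_le_card h14) Finset.card_le_two
    omega
  obtain ⟨rb, hrb⟩ := hbig
  set K : R → Prop := fun r => K0 r ∧ ¬ FTwo P fam (fam r) with hKdef
  have hK : Closed P K := by
    rintro r r' v ⟨h5, h6⟩ h7
    refine ⟨hK0 r r' v h5 h7, ?_⟩
    rw [hF.tau]
    intro h8
    exact h7.2.2 ((h4.dir r v h5 h7.1).trans (h4.two r' v h8 h7.2.1).symm)
  have hKne : ∃ r, K r := by
    have h5 := h4.half (fam rb) (P.x rb) hrb ⟨rb, rfl, Or.inl rfl⟩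
    have h6 : {r | fam r = fam rb ∧ P.On r (P.x rb) ∧ P.oth r (P.x rb) = u0 (P.x rb)}.Nonempty := by
      rw [← Set.ncard_pos (Set.toFinite _), h5]
      exact hF.pos ⟨rb, rfl, Or.inl rfl⟩
    obtain ⟨q, q1, q2, q3⟩ := h6
    have q4 : ¬ FTwo P fam (fam q) := by rw [q1]; exact hrb
    exact ⟨q, (h4.mem q (P.x rb) q4 q2).2 q3, q4⟩
  rcases unionCount hF hC hK hKne with h5 | ⟨u, h5⟩
  · exact absurd (h5 r1).1 hr1
  refine ⟨K, u, h5, fun r h => h.2, ?_⟩
  intro r r' hr hr'
  have hX : Closed P fun q => Relation.ReflTransGen (Nx P) r q := fun a b v h h' => h.tail ⟨b, v, h', rfl⟩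
  have hXK : ∀ q, Relation.ReflTransGen (Nx P) r q → K q := by
    intro q hq
    induction hq with
    | refl => exact hr
    | tail _ h ih =>
      obtain ⟨a, v, h4, rfl⟩ := h
      exact hK _ a v ih h4
  rcases unionCount hF hC hX ⟨r, Relation.ReflTransGen.refl⟩ with h6 | ⟨u', h6⟩
  · exact h6 r'
  · have hv : P.On r' (P.x r') := Or.inl rfl
    obtain ⟨q, q1, q2⟩ := h6.touch (P.x r')
    have h7 : u' (P.x r') = u (P.x r') := (h6.dir q _ q1 q2).symm.trans (h5.dir q _ (hXK q q1) q2)
    have h8 := h5.dir r' _ hr' hv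
    exact (h6.mem r' _ hr'.2 hv).2 (h8.trans h7.symm)

omit [Fintype S] [Fintype R] in
theorem ModeU.retK {K : R → Prop} {u : S → S} (h : ModeU P fam e K u)
    (h1 : ∀ r r', K r → K r' → Relation.ReflTransGen (Nx P) r r') : RETK P K := ⟨h.closed, h1⟩

end count

end Pool.Agent.Lib.MP_688fd0_co.SQ4
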